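import Pool.Agent.GGF.Defs

/-! Runs depend only on the labels which are read. -/

namespace Pool.Agent.GGF

open Finset

section det

variable {K L : Type} [Field K]
  {ask : List (L ⊕ K) → (K × K) ⊕ L} {dec : List (L ⊕ K) → Prop} {T : ℕ}
  {F R : Finset K} {σ τ : K ≃ L} {y : K}

theorem fv_const (x y : K) : fv ((0 : K), x) y = x := by simp [fv]

/-- the answer depends on the label of the number read -/
theorem ans_congr (r : (K × K) ⊕ L) (h : τ (fv (fo r (ans r σ y)) y) =
    σ (fv (fo r (ans r σ y)) y)) : ans r τ y = ans r σ y := by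
  cases r with
  | inl f =>
    simp only [ans, fo] at h ⊢
    rw [h]
  | inr l =>
    simp only [ans, fo, fv_const] at h ⊢
    rw [Equiv.apply_symm_apply] at h
    rw [← h, Equiv.symm_apply_apply]
    rw [h]

theorem clean_succ {k : ℕ} :
    clean ask F σ y (k + 1) ↔ clean ask F σ y k ∧ ps ask σ y k ∉ F := by
  unfold clean
  constructor
  · intro h
    exact ⟨fun i hi => h i (by omega), h k (by omega)⟩
  · rintro ⟨h1, h2⟩ i hi
    rcases Nat.lt_succ_iff_lt_or_eq.1 hi with h | rfl
    · exact h1 i h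
    · exact h2

theorem clean_zero : clean ask F σ y 0 := fun _ hi => absurd hi (Nat.not_lt_zero _)

theorem clean_mono {j k : ℕ} (hjk : j ≤ k) (h : clean ask F σ y k) : clean ask F σ y j :=
  fun i hi => h i (lt_of_lt_of_le hi hjk)

theorem mem_reads {x : K} :
    x ∈ reads ask T F σ y ↔ ∃ i < T, (clean ask F σ y i ∧ (ps ask σ y i ∉ F ∨ inv ask σ y i)) ∧
      ps ask σ y i = x := by
  unfold reads
  simp only [mem_image, mem_filter, mem_range, and_assoc]

theorem ans_step {k : ℕ} (h : τ (ps ask σ y k) = σ (ps ask σ y k)) (hv : view ask τ y k = view ask σ y k) :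
    ans (ask (view ask τ y k)) τ y = ans (ask (view ask σ y k)) σ y := by
  rw [hv]
  exact ans_congr _ h

theorem view_congr (h : ∀ x ∈ reads ask T F σ y, τ x = σ x) {k : ℕ} (hk : k ≤ T)
    (hc : clean ask F σ y k) : view ask τ y k = view ask σ y k := by
  induction k with
  | zero => rfl
  | succ k ih =>
    have h1 := ih (by omega) (clean_succ.1 hc).1
    have h2 : ps ask σ y k ∈ reads ask T F σ y :=
      mem_reads.2 ⟨k, by omega, ⟨(clean_succ.1 hc).1, Or.inl (clean_succ.1 hc).2⟩, rfl⟩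
    show ans (ask (view ask τ y k)) τ y :: view ask τ y k =
      ans (ask (view ask σ y k)) σ y :: view ask σ y k
    rw [ans_step (h _ h2) h1, h1]

theorem fm_congr (h : ∀ x ∈ reads ask T F σ y, τ x = σ x) {k : ℕ} (hk : k < T)
    (hc : clean ask F σ y k) : fm ask τ y k = fm ask σ y k := by
  have h1 := view_congr h hk.le hc
  unfold fm
  by_cases hi : inv ask σ y k
  · have h2 : ps ask σ y k ∈ reads ask T F σ y := mem_reads.2 ⟨k, hk, ⟨hc, Or.inr hi⟩, rfl⟩
    rw [ans_step (h _ h2) h1, h1]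
  · rw [h1]
    unfold inv at hi
    push Not at hi
    cases hr : ask (view ask σ y k) with
    | inl f => rfl
    | inr l => exact absurd hr (hi l)

theorem inv_congr (h : ∀ x ∈ reads ask T F σ y, τ x = σ x) {k : ℕ} (hk : k < T)
    (hc : clean ask F σ y k) : inv ask τ y k ↔ inv ask σ y k := by
  unfold inv
  rw [view_congr h hk.le hc]

theorem ps_congr (h : ∀ x ∈ reads ask T F σ y, τ x = σ x) {k : ℕ} (hk : k < T)
    (hc : clean ask F σ y k) : ps ask τ y k = ps ask σ y k := by
  unfold ps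
  rw [fm_congr h hk hc]

theorem clean_congr (h : ∀ x ∈ reads ask T F σ y, τ x = σ x) {k : ℕ} (hk : k ≤ T) :
    clean ask F τ y k ↔ clean ask F σ y k := by
  induction k with
  | zero => exact ⟨fun _ => clean_zero, fun _ => clean_zero⟩
  | succ k ih =>
    rw [clean_succ, clean_succ, ih (by omega)]
    constructor
    · rintro ⟨h1, h2⟩
      rw [ps_congr h (by omega) h1] at h2
      exact ⟨h1, h2⟩
    · rintro ⟨h1, h2⟩
      rw [ps_congr h (by omega) h1]
      exact ⟨h1, h2⟩

theorem reads_congr (h : ∀ x ∈ reads ask T F σ y, τ x = σ x) :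
    reads ask T F τ y = reads ask T F σ y := by
  ext x
  rw [mem_reads, mem_reads]
  constructor
  · rintro ⟨i, hi, ⟨hc, ho⟩, rfl⟩
    have hc' := (clean_congr h hi.le).1 hc
    rw [ps_congr h hi hc', inv_congr h hi hc'] at ho
    exact ⟨i, hi, ⟨hc', ho⟩, (ps_congr h hi hc').symm⟩
  · rintro ⟨i, hi, ⟨hc, ho⟩, rfl⟩
    refine ⟨i, hi, ⟨(clean_congr h hi.le).2 hc, ?_⟩, ps_congr h hi hc⟩
    rw [ps_congr h hi hc, inv_congr h hi hc]
    exact ho

theorem acc_congr (h : ∀ x ∈ reads ask T F σ y, τ x = σ x) :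
    acc ask dec T F τ y ↔ acc ask dec T F σ y := by
  unfold acc
  rw [clean_congr h le_rfl]
  constructor
  · rintro ⟨h1, h2⟩
    rw [view_congr h le_rfl h1] at h2
    exact ⟨h1, h2⟩
  · rintro ⟨h1, h2⟩
    rw [view_congr h le_rfl h1]
    exact ⟨h1, h2⟩

theorem asks_congr (h : ∀ x ∈ reads ask T F σ y, τ x = σ x) (V : Finset (K × K)) :
    asks ask T V F τ y ↔ asks ask T V F σ y := by
  unfold asks
  constructor
  · rintro ⟨k, hk, h1, h2⟩
    have h1' := (clean_congr h hk.le).1 h1
    rw [fm_congr h hk h1'] at h2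
    exact ⟨k, hk, h1', h2⟩
  · rintro ⟨k, hk, h1, h2⟩
    refine ⟨k, hk, (clean_congr h hk.le).2 h1, ?_⟩
    rw [fm_congr h hk h1]
    exact h2

theorem hit_congr (h : ∀ x ∈ reads ask T F σ y, τ x = σ x) :
    hit ask T F R τ y ↔ hit ask T F R σ y := by
  unfold hit
  constructor
  · rintro ⟨k, hk, h1, h2, h3⟩
    have h1' := (clean_congr h hk.le).1 h1
    rw [ps_congr h hk h1'] at h3
    exact ⟨k, hk, h1', (inv_congr h hk h1').1 h2, h3⟩
  · rintro ⟨k, hk, h1, h2, h3⟩
    refine ⟨k, hk, (clean_congr h hk.le).2 h1, (inv_congr h hk h1).2 h2, ?_⟩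
    rw [ps_congr h hk h1]
    exact h3

theorem card_reads_le : #(reads ask T F σ y) ≤ T := by
  classical
  unfold reads
  refine card_image_le.trans ((card_filter_le _ _).trans ?_)
  rw [card_range]

/-- at most one of the numbers revealed is forbidden -/
theorem reads_unique {x x' : K} (hx : x ∈ reads ask T F σ y) (hx' : x' ∈ reads ask T F σ y)
    (hF : x ∈ F) (hF' : x' ∈ F) : x = x' := by
  obtain ⟨i, -, ⟨hc, -⟩, rfl⟩ := mem_reads.1 hx
  obtain ⟨i', -, ⟨hc', -⟩, rfl⟩ := mem_reads.1 hx'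
  rcases lt_trichotomy i i' with h | h | h
  · exact absurd hF (hc' i h)
  · rw [h]
  · exact absurd hF' (hc i' h)

/-- a forbidden number which is revealed makes a hit -/
theorem hit_of_mem {x : K} (hx : x ∈ reads ask T F σ y) (hF : x ∈ F) (hR : x ∉ R) :
    hit ask T F R σ y := by
  obtain ⟨i, hi, ⟨hc, ho⟩, rfl⟩ := mem_reads.1 hx
  exact ⟨i, hi, hc, ho.resolve_left fun h => h hF, hF, hR⟩

end det

end Pool.Agent.GGF
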