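import Mathlib
import Pool.Agent.GGF.Det

/-!
Comparison of one number with all numbers.
-/

namespace Pool.Agent.GGF

open Finset

section cmp

variable {K L : Type} [Field K] [Fintype K] [Fintype L] [DecidableEq K] [DecidableEq L]

omit [Fintype K] [Fintype L] [DecidableEq K] [DecidableEq L] in
theorem length_view (ask : List (L ⊕ K) → (K × K) ⊕ L) (σ : K ≃ L) (y : K) (k : ℕ) :
    (view ask σ y k).length = k := by
  induction k with
  | zero => rfl
  | succ k ih =>
    show (view ask σ y k).length + 1 = k + 1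
    rw [ih]

omit [Fintype K] [Fintype L] [DecidableEq K] [DecidableEq L] in
theorem card_forms_le (ask : List (L ⊕ K) → (K × K) ⊕ L) (l : List (L ⊕ K)) : #(forms ask l) ≤ l.length := by
  classical
  induction l with
  | nil => simp [forms]
  | cons a l ih =>
    show #(insert (fo (ask l) a) (forms ask l)) ≤ l.length + 1
    exact (card_insert_le _ _).trans (by omega)

omit [Fintype K] [Fintype L] [DecidableEq K] [DecidableEq L] in
/-- a run on `z` is copied to `w` if the numbers read have the same labels -/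
theorem view_transfer (ask : List (L ⊕ K) → (K × K) ⊕ L) (τ τ' : K ≃ L) (z w : K)
    (l : List (L ⊕ K)) (hl : view ask τ z l.length = l)
    (h : ∀ f ∈ forms ask l, τ' (fv f w) = τ (fv f z)) :
    view ask τ' w l.length = l := by
  classical
  induction l with
  | nil => rfl
  | cons a l ih =>
    have hf : forms ask (a :: l) = insert (fo (ask l) a) (forms ask l) := rfl
    rw [hf] at h
    have h1 : view ask τ z (a :: l).length =
        ans (ask (view ask τ z l.length)) τ z :: view ask τ z l.length := rfl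
    rw [h1] at hl
    obtain ⟨h2, h3⟩ := List.cons.inj hl
    have h4 := ih h3 fun f hf => h f (mem_insert_of_mem hf)
    show ans (ask (view ask τ' w l.length)) τ' w :: view ask τ' w l.length = a :: l
    rw [h3] at h2
    rw [h4]
    congr 1
    have h5 := h _ (mem_insert_self _ _)
    rw [← h2] at h5 ⊢
    cases hr : ask l with
    | inl f =>
      rw [hr] at h5
      simp only [ans, fo] at h5 ⊢
      rw [h5]
    | inr x =>
      rw [hr] at h5
      simp only [ans, fo, fv_const, Equiv.apply_symm_apply] at h5 ⊢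
      rw [← h5, Equiv.symm_apply_apply]
      rw [h5]

omit [Fintype K] [Fintype L] [DecidableEq K] [DecidableEq L] in
/-- the forms of the numbers read in a run -/
theorem fm_mem_forms (ask : List (L ⊕ K) → (K × K) ⊕ L) (τ : K ≃ L) (w : K) (l : List (L ⊕ K))
    (hl : view ask τ w l.length = l) (i : ℕ) (hi : i < l.length) :
    fm ask τ w i ∈ forms ask l := by
  classical
  induction l with
  | nil => simp at hi
  | cons a l ih =>
    have h1 : view ask τ w (a :: l).length =
        ans (ask (view ask τ w l.length)) τ w :: view ask τ w l.length := rfl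
    rw [h1] at hl
    obtain ⟨h2, h3⟩ := List.cons.inj hl
    have hf : forms ask (a :: l) = insert (fo (ask l) a) (forms ask l) := rfl
    rw [hf, mem_insert]
    have hi' : i < l.length + 1 := hi
    rcases Nat.lt_succ_iff_lt_or_eq.1 hi' with h | h
    · exact Or.inr (ih h3 h)
    · left
      show fo (ask (view ask τ w i)) (ans (ask (view ask τ w i)) τ w) = fo (ask l) a
      rw [h, h3]
      rw [h3] at h2
      rw [h2]

omit [Fintype K] in
/-- two different forms agree at one number at most -/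
theorem card_agree_le (Y : Finset K) (f f' : K × K) (hne : f ≠ f') :
    #{w ∈ Y | fv f w = fv f' w} ≤ 1 := by
  rw [card_le_one]
  intro x hx x' hx'
  rw [mem_filter] at hx hx'
  have h1 := hx.2
  have h2 := hx'.2
  unfold fv at h1 h2
  have h3 : (f.1 - f'.1) * (x - x') = 0 := by linear_combination h1 - h2
  rcases mul_eq_zero.1 h3 with h | h
  · exfalso
    have h4 : f.1 = f'.1 := sub_eq_zero.1 h
    rw [h4] at h1
    exact hne (Prod.ext h4 (add_left_cancel h1))
  · exact sub_eq_zero.1 h

open Classical in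
/-- the numbers which are lost -/
theorem card_lost (ask : List (L ⊕ K) → (K × K) ⊕ L) (R W : Finset K) (l : List (L ⊕ K))
    (hc : ∀ g : K, ((0 : K), g) ∈ forms ask l → g ∉ W) :
    Fintype.card K ≤
      #{w : K | Set.InjOn (fun f : K × K => fv f w)
          ((forms ask l : Set (K × K)) ∪ {f : K × K | f.1 = 0 ∧ f.2 ∈ R}) ∧
        ∀ f ∈ forms ask l, fv f w ∉ W} + l.length * (l.length + #R + #W) := by
  set A : Finset (K × K) := forms ask l with hA
  -- the forms to be compared with
  set B : Finset (K × K) := A ∪ (R.image (fun g => ((0 : K), g)) ∪ W.image fun g => ((0 : K), g))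
    with hB
  have hBc : #B ≤ l.length + #R + #W := by
    have h1 := card_union_le A (R.image (fun g => ((0 : K), g)) ∪ W.image fun g => ((0 : K), g))
    have h2 := card_union_le (R.image (fun g => ((0 : K), g))) (W.image fun g => ((0 : K), g))
    have h3 : #(R.image (fun g => ((0 : K), g))) ≤ #R := card_image_le
    have h4 : #(W.image (fun g => ((0 : K), g))) ≤ #W := card_image_le
    have h5 : #A ≤ l.length := card_forms_le ask l
    have h6 : #B = #(A ∪ (R.image (fun g => ((0 : K), g)) ∪ W.image fun g => ((0 : K), g))) := rfl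
    omega
  set Lost : Finset K := ((A ×ˢ B).filter fun q => q.1 ≠ q.2).biUnion fun q =>
    univ.filter fun w => fv q.1 w = fv q.2 w with hLost
  have hLc : #Lost ≤ l.length * (l.length + #R + #W) := by
    refine card_biUnion_le.trans ?_
    refine (sum_le_sum fun q hq => card_agree_le univ q.1 q.2 (mem_filter.1 hq).2).trans ?_
    rw [sum_const, smul_eq_mul, mul_one]
    refine (card_filter_le _ _).trans ?_
    rw [card_product]
    exact Nat.mul_le_mul (card_forms_le ask l) hBc
  have hcov : (univ : Finset K) ⊆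
      ((univ : Finset K).filter fun w : K => Set.InjOn (fun f : K × K => fv f w)
          ((A : Set (K × K)) ∪ {f : K × K | f.1 = 0 ∧ f.2 ∈ R}) ∧
        ∀ f ∈ A, fv f w ∉ W) ∪ Lost := by
    intro w _
    rw [mem_union]
    by_cases hw : w ∈ Lost
    · exact Or.inr hw
    left
    have key : ∀ f ∈ A, ∀ f' ∈ B, fv f w = fv f' w → f = f' := by
      intro f hf f' hf' he
      by_contra hne
      exact hw (mem_biUnion.2 ⟨(f, f'), mem_filter.2 ⟨mem_product.2 ⟨hf, hf'⟩, hne⟩,
        mem_filter.2 ⟨mem_univ _, he⟩⟩)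
    have hRB : ∀ f : K × K, f.1 = 0 → f.2 ∈ R → f ∈ B := by
      intro f h1 h2
      refine mem_union_right _ (mem_union_left _ (mem_image.2 ⟨f.2, h2, ?_⟩))
      exact Prod.ext h1.symm rfl
    rw [mem_filter]
    refine ⟨mem_univ _, ?_, ?_⟩
    · intro f hf f' hf' he
      rcases hf with hf | hf
      · rcases hf' with hf' | hf'
        · exact key f (mem_coe.1 hf) f' (mem_union_left _ (mem_coe.1 hf')) he
        · exact key f (mem_coe.1 hf) f' (hRB f' hf'.1 hf'.2) he
      · rcases hf' with hf' | hf'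
        · exact (key f' (mem_coe.1 hf') f (hRB f hf.1 hf.2) he.symm).symm
        · have h1 : f.1 = 0 := hf.1
          have h2 : f'.1 = 0 := hf'.1
          refine Prod.ext (h1.trans h2.symm) ?_
          have h3 : f.1 * w + f.2 = f'.1 * w + f'.2 := he
          rw [h1, h2] at h3
          simpa using h3
    · intro f hf hfW
      have h1 : f = ((0 : K), fv f w) := by
        refine key f hf _ (mem_union_right _ (mem_union_right _ (mem_image.2 ⟨_, hfW, rfl⟩))) ?_
        unfold fv
        simp
      rw [h1] at hf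
      exact hc _ hf hfW
  have h1 := card_le_card hcov
  rw [card_univ] at h1
  have h2 := card_union_le
    ((univ : Finset K).filter fun w : K => Set.InjOn (fun f : K × K => fv f w)
          ((A : Set (K × K)) ∪ {f : K × K | f.1 = 0 ∧ f.2 ∈ R}) ∧
        ∀ f ∈ A, fv f w ∉ W) Lost
  omega

open Classical in
/-- equally many labellings give the same run -/
theorem card_run_le (ask : List (L ⊕ K) → (K × K) ⊕ L) (R W : Finset K) (σ : K ≃ L) (z w : K) (l : List (L ⊕ K))
    (hz : Set.InjOn (fun f : K × K => fv f z)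
        ((forms ask l : Set (K × K)) ∪ {f : K × K | f.1 = 0 ∧ f.2 ∈ R}))
    (hw : Set.InjOn (fun f : K × K => fv f w)
        ((forms ask l : Set (K × K)) ∪ {f : K × K | f.1 = 0 ∧ f.2 ∈ R}))
    (hW : ∀ f ∈ forms ask l, fv f w ∉ W) :
    #((ext R σ).filter fun τ : K ≃ L => view ask τ z l.length = l) ≤
      #((ext R σ).filter fun τ : K ≃ L => view ask τ w l.length = l ∧ clean ask W τ w l.length) := by
  set S : Set (K × K) := (forms ask l : Set (K × K)) ∪ {f : K × K | f.1 = 0 ∧ f.2 ∈ R} with hS
  let e₀ : {x // x ∈ (fun f : K × K => fv f z) '' S} ≃ {x // x ∈ (fun f : K × K => fv f w) '' S} :=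
    (Equiv.Set.imageOfInjOn _ S hz).symm.trans (Equiv.Set.imageOfInjOn _ S hw)
  let e : Equiv.Perm K := Equiv.extendSubtype e₀
  have he : ∀ f ∈ S, e (fv f z) = fv f w := by
    intro f hf
    have hm : fv f z ∈ (fun f : K × K => fv f z) '' S := ⟨f, hf, rfl⟩
    have h1 : e (fv f z) = e₀ ⟨fv f z, hm⟩ := Equiv.extendSubtype_apply_of_mem e₀ _ hm
    rw [h1]
    have h2 : (Equiv.Set.imageOfInjOn (fun f : K × K => fv f z) S hz) ⟨f, hf⟩ = ⟨fv f z, hm⟩ := rfl
    have h3 : (Equiv.Set.imageOfInjOn (fun f : K × K => fv f z) S hz).symm ⟨fv f z, hm⟩ =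
        ⟨f, hf⟩ := by
      rw [Equiv.symm_apply_eq, h2]
    show ((Equiv.Set.imageOfInjOn (fun f : K × K => fv f w) S hw)
      ((Equiv.Set.imageOfInjOn (fun f : K × K => fv f z) S hz).symm ⟨fv f z, hm⟩) : K) = fv f w
    rw [h3]
    rfl
  have hes : ∀ f ∈ S, e.symm (fv f w) = fv f z := by
    intro f hf
    rw [Equiv.symm_apply_eq, he f hf]
  refine card_le_card_of_injOn (fun τ => e.symm.trans τ) ?_ ?_
  · intro τ hτ
    rw [mem_coe, mem_filter] at hτ
    obtain ⟨h1, h2⟩ := hτ
    have h3 : view ask (e.symm.trans τ) w l.length = l := by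
      refine view_transfer ask τ (e.symm.trans τ) z w l h2 ?_
      intro f hf
      show τ (e.symm (fv f w)) = τ (fv f z)
      rw [hes f (Or.inl (mem_coe.2 hf))]
    rw [mem_coe, mem_filter]
    refine ⟨?_, h3, ?_⟩
    · unfold ext at h1 ⊢
      rw [mem_filter] at h1 ⊢
      refine ⟨mem_univ _, fun x hx => ?_⟩
      have h4 : ((0 : K), x) ∈ S := Or.inr ⟨rfl, hx⟩
      have h5 := hes _ h4
      have h6 : ∀ y : K, fv ((0 : K), x) y = x := by
        intro y
        unfold fv
        simp
      rw [h6, h6] at h5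
      show τ (e.symm x) = σ x
      rw [h5]
      exact h1.2 x hx
    · intro i hi
      exact hW _ (fm_mem_forms ask _ w l h3 i hi)
  · intro τ _ τ' _ h
    have h1 : e.symm.trans τ = e.symm.trans τ' := h
    ext x
    have h2 := congrArg (fun g : K ≃ L => g (e x)) h1
    simpa using h2

open Classical in
theorem compare (hKL : Fintype.card K = Fintype.card L) (ask : List (L ⊕ K) → (K × K) ⊕ L)
    (R W : Finset K) (σ : K ≃ L) (z : K) (k : ℕ) (Φ : List (L ⊕ K) → Prop)
    (hΦ : ∀ l : List (L ⊕ K), l.length = k → Φ l →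
      Set.InjOn (fun f : K × K => fv f z)
        ((forms ask l : Set (K × K)) ∪ {f : K × K | f.1 = 0 ∧ f.2 ∈ R}) ∧
      ∀ g : K, ((0 : K), g) ∈ forms ask l → g ∉ W) :
    ((Fintype.card K : ℝ) - k * (k + #R + #W)) * (#((ext R σ).filter fun τ : K ≃ L => Φ (view ask τ z k)) : ℝ) ≤
      ∑ w : K, (#((ext R σ).filter fun τ : K ≃ L => Φ (view ask τ w k) ∧ clean ask W τ w k) : ℝ) := by
  set A : Finset (K ≃ L) := (ext R σ).filter fun τ : K ≃ L => Φ (view ask τ z k) with hA
  set 𝓛 : Finset (List (L ⊕ K)) := A.image fun τ : K ≃ L => view ask τ z k with h𝓛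
  have hmem : ∀ l ∈ 𝓛, l.length = k ∧ Φ l := by
    intro l hl
    obtain ⟨τ, hτ, rfl⟩ := mem_image.1 hl
    exact ⟨length_view _ _ _ _, (mem_filter.1 hτ).2⟩
  have h1 : #A = ∑ l ∈ 𝓛, #(A.filter fun τ : K ≃ L => view ask τ z k = l) :=
    card_eq_sum_card_fiberwise fun τ hτ => mem_coe.2 (mem_image_of_mem _ (mem_coe.1 hτ))
  have h2 : ∀ l ∈ 𝓛, ((Fintype.card K : ℝ) - k * (k + #R + #W)) *
      (#(A.filter fun τ : K ≃ L => view ask τ z k = l) : ℝ) ≤
      ∑ w : K, (#((ext R σ).filter fun τ : K ≃ L => view ask τ w k = l ∧ clean ask W τ w k) : ℝ) := by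
    intro l hl
    obtain ⟨hk, hl2⟩ := hmem l hl
    obtain ⟨hz, hc⟩ := hΦ l hk hl2
    set G : Finset K := {w : K | Set.InjOn (fun f : K × K => fv f w)
          ((forms ask l : Set (K × K)) ∪ {f : K × K | f.1 = 0 ∧ f.2 ∈ R}) ∧
        ∀ f ∈ forms ask l, fv f w ∉ W} with hG
    have h3 : (Fintype.card K : ℝ) - k * (k + #R + #W) ≤ #G := by
      have h4 := card_lost ask R W l hc
      rw [hk] at h4
      have h5 : (Fintype.card K : ℝ) ≤ ((#G + k * (k + #R + #W) : ℕ) : ℝ) := by exact_mod_cast h4
      push_cast at h5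
      linarith
    have h4 : ∀ w ∈ G, (#(A.filter fun τ : K ≃ L => view ask τ z k = l) : ℝ) ≤
        #((ext R σ).filter fun τ : K ≃ L => view ask τ w k = l ∧ clean ask W τ w k) := by
      intro w hw
      obtain ⟨-, hw1, hw2⟩ := mem_filter.1 hw
      have h5 := card_run_le ask R W σ z w l hz hw1 hw2
      rw [hk] at h5
      have h6 : #(A.filter fun τ : K ≃ L => view ask τ z k = l) ≤ #((ext R σ).filter fun τ : K ≃ L => view ask τ z k = l) := by
        refine card_le_card fun τ hτ => ?_
        obtain ⟨h7, h8⟩ := mem_filter.1 hτ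
        exact mem_filter.2 ⟨(mem_filter.1 h7).1, h8⟩
      exact_mod_cast h6.trans h5
    calc ((Fintype.card K : ℝ) - k * (k + #R + #W)) * (#(A.filter fun τ : K ≃ L => view ask τ z k = l) : ℝ)
        ≤ #G * (#(A.filter fun τ : K ≃ L => view ask τ z k = l) : ℝ) :=
          mul_le_mul_of_nonneg_right h3 (Nat.cast_nonneg _)
      _ = ∑ _w ∈ G, (#(A.filter fun τ : K ≃ L => view ask τ z k = l) : ℝ) := by rw [sum_const, nsmul_eq_mul]
      _ ≤ ∑ w ∈ G, (#((ext R σ).filter fun τ : K ≃ L => view ask τ w k = l ∧ clean ask W τ w k) : ℝ) :=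
          sum_le_sum h4
      _ ≤ _ := sum_le_sum_of_subset_of_nonneg (subset_univ _) fun _ _ _ => Nat.cast_nonneg _
  have h3 : ∀ w : K, (∑ l ∈ 𝓛, (#((ext R σ).filter fun τ : K ≃ L => view ask τ w k = l ∧ clean ask W τ w k) : ℝ)) ≤
      #((ext R σ).filter fun τ : K ≃ L => Φ (view ask τ w k) ∧ clean ask W τ w k) := by
    intro w
    have h4 : ∑ l ∈ 𝓛, #((ext R σ).filter fun τ : K ≃ L => view ask τ w k = l ∧ clean ask W τ w k) =
        ∑ l ∈ 𝓛, #(((ext R σ).filter fun τ : K ≃ L => Φ (view ask τ w k) ∧ clean ask W τ w k).filter fun τ : K ≃ L =>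
          view ask τ w k = l) := by
      refine sum_congr rfl fun l hl => ?_
      congr 1
      ext τ
      simp only [mem_filter]
      constructor
      · rintro ⟨h5, h6, h7⟩
        exact ⟨⟨h5, by rw [h6]; exact (hmem l hl).2, h7⟩, h6⟩
      · rintro ⟨⟨h5, -, h7⟩, h6⟩
        exact ⟨h5, h6, h7⟩
    have h5 : ∑ l ∈ 𝓛, #(((ext R σ).filter fun τ : K ≃ L => Φ (view ask τ w k) ∧ clean ask W τ w k).filter fun τ : K ≃ L =>
          view ask τ w k = l) ≤ #((ext R σ).filter fun τ : K ≃ L => Φ (view ask τ w k) ∧ clean ask W τ w k) := by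
      rw [sum_card_fiberwise_eq_card_filter]
      exact card_filter_le _ _
    rw [← h4] at h5
    exact_mod_cast h5
  calc ((Fintype.card K : ℝ) - k * (k + #R + #W)) * (#A : ℝ)
      = ∑ l ∈ 𝓛, ((Fintype.card K : ℝ) - k * (k + #R + #W)) *
          (#(A.filter fun τ : K ≃ L => view ask τ z k = l) : ℝ) := by
        rw [h1, ← mul_sum]
        push_cast
        rfl
    _ ≤ ∑ l ∈ 𝓛, ∑ w : K, (#((ext R σ).filter fun τ : K ≃ L => view ask τ w k = l ∧ clean ask W τ w k) : ℝ) :=
        sum_le_sum h2
    _ = ∑ w : K, ∑ l ∈ 𝓛, (#((ext R σ).filter fun τ : K ≃ L => view ask τ w k = l ∧ clean ask W τ w k) : ℝ) :=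
        sum_comm
    _ ≤ _ := sum_le_sum fun w _ => h3 w

end cmp

end Pool.Agent.GGF
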