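import Mathlib
import Pool.Agent.GGF.Det
import Pool.Agent.GGF.Sup

/-!
An inverse read of an unknown label finds a number of a small set with small probability.
-/

namespace Pool.Agent.GGF

open Finset

variable {K L : Type} [Field K] [Fintype K] [Fintype L] [DecidableEq K] [DecidableEq L]

omit [Fintype K] [Fintype L] [DecidableEq L] in
/-- the run is not changed when two numbers which have not been read are exchanged -/
theorem view_swap (ask : List (L ⊕ K) → (K × K) ⊕ L) (τ : K ≃ L) (y x x' : K) (k : ℕ)
    (hx : ∀ i < k, ps ask τ y i ≠ x) (hx' : ∀ i < k, ps ask τ y i ≠ x') :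
    view ask ((Equiv.swap x x').trans τ) y k = view ask τ y k := by
  induction k with
  | zero => rfl
  | succ k ih =>
    have h1 := ih (fun i hi => hx i (by omega)) fun i hi => hx' i (by omega)
    show ans (ask (view ask ((Equiv.swap x x').trans τ) y k)) ((Equiv.swap x x').trans τ) y ::
      view ask ((Equiv.swap x x').trans τ) y k = ans (ask (view ask τ y k)) τ y :: view ask τ y k
    rw [ans_step (σ := τ) ?_ h1, h1]
    show τ (Equiv.swap x x' (ps ask τ y k)) = τ (ps ask τ y k)
    rw [Equiv.swap_apply_of_ne_of_ne (hx k (by omega)) (hx' k (by omega))]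

open Classical in
/-- the numbers which are known before step `k` -/
noncomputable def known (ask : List (L ⊕ K) → (K × K) ⊕ L) (R : Finset K) (τ : K ≃ L) (y : K)
    (k : ℕ) : Finset K := R ∪ (range k).image (ps ask τ y)

theorem card_known_le (ask : List (L ⊕ K) → (K × K) ⊕ L) (R : Finset K) (τ : K ≃ L) (y : K)
    (k : ℕ) : #(known ask R τ y k) ≤ #R + k := by
  refine (card_union_le _ _).trans (Nat.add_le_add_left ?_ _)
  exact card_image_le.trans (by rw [card_range])

open Classical in
theorem hit_count (ask : List (L ⊕ K) → (K × K) ⊕ L) (R B : Finset K) (σ : K ≃ L) (y : K) (k : ℕ) :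
    ((Fintype.card K : ℝ) - (#R + k)) * (#((ext R σ).filter fun τ : K ≃ L => inv ask τ y k ∧
      ps ask τ y k ∈ B ∧ ps ask τ y k ∉ R ∧ ∀ i < k, ps ask τ y k ≠ ps ask τ y i) : ℝ) ≤
      #B * #(ext R σ) := by
  set A : Finset (K ≃ L) := (ext R σ).filter fun τ : K ≃ L => inv ask τ y k ∧
      ps ask τ y k ∈ B ∧ ps ask τ y k ∉ R ∧ ∀ i < k, ps ask τ y k ≠ ps ask τ y i with hA
  set S : Finset ((K ≃ L) × K) := (A ×ˢ univ).filter fun q => q.2 ∉ known ask R q.1 y k with hS
  have h1 : ∀ τ ∈ A, Fintype.card K ≤ #(univ.filter fun x => x ∉ known ask R τ y k) + (#R + k) := by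
    intro τ _
    have h2 := card_filter_add_card_filter_not (s := (univ : Finset K))
      (fun x => x ∈ known ask R τ y k)
    have h3 : #(univ.filter fun x => x ∈ known ask R τ y k) ≤ #R + k := by
      rw [filter_mem_eq_inter, univ_inter]
      exact card_known_le ask R τ y k
    rw [card_univ] at h2
    omega
  have h2 : ((Fintype.card K : ℝ) - (#R + k)) * #A ≤ #S := by
    have h3 : #S = ∑ τ ∈ A, #(univ.filter fun x => x ∉ known ask R τ y k) := by
      rw [hS, card_filter, sum_product]
      refine sum_congr rfl fun τ _ => ?_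
      rw [card_filter]
    rw [h3]
    push_cast
    rw [mul_comm, ← nsmul_eq_mul, ← sum_const]
    refine sum_le_sum fun τ hτ => ?_
    have h4 := h1 τ hτ
    have h5 : (Fintype.card K : ℝ) ≤
        (#(univ.filter fun x => x ∉ known ask R τ y k) + (#R + k) : ℕ) := by exact_mod_cast h4
    push_cast at h5
    linarith
  refine h2.trans ?_
  have h3 : #S ≤ #(B ×ˢ ext R σ) := by
    refine card_le_card_of_injOn
      (fun q => (ps ask q.1 y k, (Equiv.swap (ps ask q.1 y k) q.2).trans q.1)) ?_ ?_
    · intro q hq
      rw [hS, mem_coe, mem_filter, mem_product] at hq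
      obtain ⟨⟨hq1, -⟩, hq2⟩ := hq
      rw [hA, mem_filter] at hq1
      obtain ⟨he, hi, hB, hR, hne⟩ := hq1
      rw [mem_coe, mem_product]
      refine ⟨hB, ?_⟩
      rw [mem_ext] at he ⊢
      intro x hx
      show q.1 (Equiv.swap (ps ask q.1 y k) q.2 x) = σ x
      rw [Equiv.swap_apply_of_ne_of_ne, he x hx]
      · rintro rfl
        exact hR hx
      · rintro rfl
        exact hq2 (mem_union_left _ hx)
    · -- the number found by the changed run is `q.2`
      have key : ∀ q ∈ S, view ask ((Equiv.swap (ps ask q.1 y k) q.2).trans q.1) y k =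
          view ask q.1 y k ∧ ps ask ((Equiv.swap (ps ask q.1 y k) q.2).trans q.1) y k = q.2 := by
        intro q hq
        rw [hS, mem_filter, mem_product] at hq
        obtain ⟨⟨hq1, -⟩, hq2⟩ := hq
        rw [hA, mem_filter] at hq1
        obtain ⟨he, ⟨l, hi⟩, hB, hR, hne⟩ := hq1
        have hv : view ask ((Equiv.swap (ps ask q.1 y k) q.2).trans q.1) y k =
            view ask q.1 y k := by
          refine view_swap ask q.1 y _ _ k (fun i hi => (hne i hi).symm) fun i hi h => hq2 ?_
          exact mem_union_right _ (mem_image.2 ⟨i, mem_range.2 hi, h⟩)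
        refine ⟨hv, ?_⟩
        have e1 : ∀ ρ : K ≃ L, view ask ρ y k = view ask q.1 y k → ps ask ρ y k = ρ.symm l := by
          intro ρ hρ
          unfold ps fm
          rw [hρ, hi]
          simp only [ans, fo, fv_const]
        rw [e1 _ hv, e1 q.1 rfl]
        show Equiv.swap (q.1.symm l) q.2 (q.1.symm l) = q.2
        exact Equiv.swap_apply_left _ _
      intro q hq q' hq' he
      have h4 : ps ask q.1 y k = ps ask q'.1 y k := congrArg Prod.fst he
      have h5 : (Equiv.swap (ps ask q.1 y k) q.2).trans q.1 =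
          (Equiv.swap (ps ask q'.1 y k) q'.2).trans q'.1 := congrArg Prod.snd he
      have h6 : q.2 = q'.2 := by
        rw [← (key q hq).2, ← (key q' hq').2, h5]
      refine Prod.ext ?_ h6
      rw [h4, h6] at h5
      ext x
      have h7 := congrArg (fun g : K ≃ L => g (Equiv.swap (ps ask q'.1 y k) q'.2 x)) h5
      simpa using h7
  rw [card_product] at h3
  exact_mod_cast h3

end Pool.Agent.GGF
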