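import Mathlib
import Pool.Agent.GGF.Defs
import Pool.Agent.GGF.Lt
import Pool.Agent.GGF.Cmp
import Pool.Agent.GGF.Hit

/-!
Sums are accepted hardly more often than random numbers.
-/

namespace Pool.Agent.GGF

open Finset

variable {K L : Type} [Field K] [Fintype K] [Fintype L] [DecidableEq K] [DecidableEq L]

/-- the constants of `R`, as forms -/
def Rc (R : Finset K) : Set (K × K) := {f : K × K | f.1 = 0 ∧ f.2 ∈ R}

/-- no coincidence and no hidden constant so far -/
def Fine (P : Par K L) (R : Finset K) (z : K) (l : List (L ⊕ K)) : Prop :=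
  Set.InjOn (fun f : K × K => fv f z) ((forms P.ask l : Set (K × K)) ∪ Rc R) ∧
    ∀ g : K, ((0 : K), g) ∈ forms P.ask l → g ∉ P.W

/-- no heavy form so far -/
def NoHeavy (P : Par K L) (R : Finset K) (σ : K ≃ L) (l : List (L ⊕ K)) : Prop :=
  ∀ f ∈ forms P.ask l, f ∉ P.heavy R σ

/-- no coincidence, and the query is accepted -/
def PhiF (P : Par K L) (R : Finset K) (z : K) (l : List (L ⊕ K)) : Prop :=
  Fine P R z l ∧ P.dec l

/-- the next form asked is the first heavy one -/
def PhiH (P : Par K L) (R : Finset K) (σ : K ≃ L) (z : K) (l : List (L ⊕ K)) : Prop :=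
  Fine P R z l ∧ NoHeavy P R σ l ∧ ∃ f ∈ P.heavy R σ, P.ask l = Sum.inl f

/-- the next form asked is not heavy, and it makes the first coincidence -/
def PhiC (P : Par K L) (R : Finset K) (σ : K ≃ L) (z : K) (l : List (L ⊕ K)) : Prop :=
  Fine P R z l ∧ NoHeavy P R σ l ∧ ∃ f, P.ask l = Sum.inl f ∧ f ∉ P.heavy R σ ∧
    ((∃ h ∈ (forms P.ask l : Set (K × K)) ∪ Rc R, h ≠ f ∧ fv h z = fv f z) ∨
      ∃ g ∈ P.blk z, f = (0, g))

/-- an inverse read finds a number of the block of `z`, which has not been read before -/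
def PhiI (P : Par K L) (τ : K ≃ L) (z : K) (k : ℕ) : Prop :=
  inv P.ask τ z k ∧ ps P.ask τ z k ∈ P.blk z ∧ ∀ i < k, ps P.ask τ z k ≠ ps P.ask τ z i

omit [Fintype K] [Fintype L] [DecidableEq L] in
theorem coe_forms (ask : List (L ⊕ K) → (K × K) ⊕ L) (x : L ⊕ K) (l : List (L ⊕ K)) :
    (forms ask (x :: l) : Set (K × K)) = insert (fo (ask l) x) (forms ask l : Set (K × K)) := by
  simp [forms]

omit [Fintype K] [Fintype L] [DecidableEq L] in
theorem mem_forms (ask : List (L ⊕ K) → (K × K) ⊕ L) (x : L ⊕ K) (l : List (L ⊕ K)) (f : K × K) :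
    f ∈ forms ask (x :: l) ↔ f = fo (ask l) x ∨ f ∈ forms ask l := by
  simp [forms]

omit [Fintype K] [DecidableEq K] in
theorem fv_zero (g z : K) : fv ((0 : K), g) z = g := by simp [fv]

omit [Fintype K] [DecidableEq K] in
theorem rc_injOn (R : Finset K) (z : K) : Set.InjOn (fun f : K × K => fv f z) (Rc R) := by
  rintro ⟨c, g⟩ ⟨hc, hg⟩ ⟨c', g'⟩ ⟨hc', hg'⟩ h
  simp only at hc hc'
  subst hc hc'
  simp only [fv_zero] at h
  rw [h]

omit [Fintype K] [Fintype L] [DecidableEq K] [DecidableEq L] in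
/-- the form read in a step -/
theorem fo_ans (ask : List (L ⊕ K) → (K × K) ⊕ L) (τ : K ≃ L) (z : K) (k : ℕ) :
    fo (ask (view ask τ z k)) (ans (ask (view ask τ z k)) τ z) = fm ask τ z k := rfl

omit [Fintype K] [Fintype L] [DecidableEq L] in
/-- a form read before is a constant found by an inverse read, or the label of its value is in the
list of the answers -/
theorem forms_view (ask : List (L ⊕ K) → (K × K) ⊕ L) (τ : K ≃ L) (z : K) {k : ℕ} {h : K × K}
    (hh : h ∈ forms ask (view ask τ z k)) :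
    h.1 = 0 ∨ Sum.inl (τ (fv h z)) ∈ view ask τ z k := by
  induction k with
  | zero => simp [view, forms] at hh
  | succ k ih =>
    rw [view, mem_forms] at hh
    rcases hh with hh | hh
    · rcases hr : ask (view ask τ z k) with f | x
      · rw [hr] at hh
        have h1 : h = f := by rw [hh]; rfl
        right
        rw [view, hr, h1]
        exact List.mem_cons_self ..
      · rw [hr] at hh
        left
        rw [hh]
        rfl
    · rcases ih hh with h1 | h1
      · exact Or.inl h1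
      · right
        rw [view]
        exact List.mem_cons_of_mem _ h1

omit [Fintype K] [Fintype L] [DecidableEq L] in
/-- the form read in a step is in the list of the forms read later -/
theorem fm_mem_forms_view (ask : List (L ⊕ K) → (K × K) ⊕ L) (σ : K ≃ L) (y : K) {k k' : ℕ}
    (h : k < k') : fm ask σ y k ∈ forms ask (view ask σ y k') := by
  induction k' with
  | zero => omega
  | succ j ih =>
    rw [view, mem_forms]
    rcases Nat.lt_succ_iff_lt_or_eq.1 h with h1 | rfl
    · exact Or.inr (ih h1)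
    · exact Or.inl rfl

/-- the cases for an accepted number -/
theorem acc_cases (P : Par K L) (hfr : Fresh P.ask) (R : Finset K) (σ τ : K ≃ L) (z : K)
    (hz : P.blk z ⊆ P.W)
    (hacc : acc P.ask P.dec P.T (P.W \ P.blk z) τ z) :
    (Fine P R z (view P.ask τ z P.T) ∧ P.dec (view P.ask τ z P.T)) ∨
      (∃ k < P.T, PhiH P R σ z (view P.ask τ z k)) ∨
      (∃ k < P.T, PhiC P R σ z (view P.ask τ z k)) ∨ ∃ k < P.T, PhiI P τ z k := by
  by_contra hcon
  push Not at hcon
  obtain ⟨h1, h2, h3, h4⟩ := hcon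
  have key : ∀ k ≤ P.T, Fine P R z (view P.ask τ z k) ∧ NoHeavy P R σ (view P.ask τ z k) := by
    intro k
    induction k with
    | zero =>
      intro _
      refine ⟨⟨?_, ?_⟩, ?_⟩
      · simp only [view, forms, coe_empty, Set.empty_union]
        exact rc_injOn R z
      · intro g hg
        simp [view, forms] at hg
      · intro f hf
        simp [view, forms] at hf
    | succ k ih =>
      intro hk
      obtain ⟨hf, hn⟩ := ih (by omega)
      have hcl := hacc.1 k (by omega)
      rcases hr : P.ask (view P.ask τ z k) with f | x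
      · -- a number is read
        have hh : f ∉ P.heavy R σ := by
          intro h
          exact h2 k (by omega) ⟨hf, hn, f, h, hr⟩
        have hc : ¬ ((∃ h ∈ (forms P.ask (view P.ask τ z k) : Set (K × K)) ∪ Rc R,
            h ≠ f ∧ fv h z = fv f z) ∨ ∃ g ∈ P.blk z, f = (0, g)) := by
          intro h
          exact h3 k (by omega) ⟨hf, hn, f, hr, hh, h⟩
        push Not at hc
        obtain ⟨hc1, hc2⟩ := hc
        have hfm : fm P.ask τ z k = f := by
          unfold fm
          rw [hr]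
          rfl
        refine ⟨⟨?_, ?_⟩, ?_⟩
        · rw [view, coe_forms, fo_ans, hfm, Set.insert_union]
          rintro f' hf' g hg' (hfg : fv f' z = fv g z)
          rcases hf' with rfl | hf' <;> rcases hg' with rfl | hg'
          · rfl
          · by_contra hne
            exact hc1 g hg' (Ne.symm hne) hfg.symm
          · by_contra hne
            exact hc1 f' hf' hne hfg
          · exact hf.1 hf' hg' hfg
        · intro g hg
          rw [view, mem_forms, fo_ans, hfm] at hg
          rcases hg with hg | hg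
          · intro hW
            have hps : ps P.ask τ z k = g := by
              unfold ps
              rw [hfm, ← hg, fv_zero]
            rw [hps, mem_sdiff] at hcl
            push Not at hcl
            exact hc2 g (hcl hW) hg.symm
          · exact hf.2 g hg
        · intro f' hfm'
          rw [view, mem_forms, fo_ans, hfm] at hfm'
          rcases hfm' with rfl | hfm'
          · exact hh
          · exact hn f' hfm'
      · -- a label is inverted
        have hfm : fm P.ask τ z k = (0, τ.symm x) := by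
          unfold fm
          rw [hr]
          rfl
        have hps : ps P.ask τ z k = τ.symm x := by
          unfold ps
          rw [hfm, fv_zero]
        have hnew : ∀ h ∈ forms P.ask (view P.ask τ z k), h.1 ≠ 0 → fv h z ≠ τ.symm x := by
          intro h hh h0 he
          rcases forms_view P.ask τ z hh with h5 | h5
          · exact h0 h5
          · rw [he, Equiv.apply_symm_apply] at h5
            exact hfr _ _ hr h5
        have hnb : τ.symm x ∉ P.blk z := by
          intro hb
          refine h4 k (by omega) ⟨⟨x, hr⟩, by rw [hps]; exact hb, ?_⟩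
          intro i hi he
          have hmem := fm_mem_forms_view P.ask τ z hi
          rw [hps] at he
          by_cases h0 : (fm P.ask τ z i).1 = 0
          · have h5 : fm P.ask τ z i = (0, τ.symm x) := by
              refine Prod.ext h0 ?_
              have h6 : ps P.ask τ z i = (fm P.ask τ z i).2 := by
                unfold ps fv
                rw [h0, zero_mul, zero_add]
              rw [← h6, ← he]
            rw [h5] at hmem
            exact hf.2 _ hmem (hz hb)
          · exact hnew _ hmem h0 he.symm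
        refine ⟨⟨?_, ?_⟩, ?_⟩
        · rw [view, coe_forms, fo_ans, hfm, Set.insert_union]
          have hA : ∀ h ∈ (forms P.ask (view P.ask τ z k) : Set (K × K)) ∪ Rc R,
              fv h z = fv ((0 : K), τ.symm x) z → h = (0, τ.symm x) := by
            intro h hh he
            rw [fv_zero] at he
            have h0 : h.1 = 0 := by
              rcases hh with hh | hh
              · by_contra h0
                exact hnew h hh h0 he
              · exact hh.1
            refine Prod.ext h0 ?_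
            have h6 : fv h z = h.2 := by
              unfold fv
              rw [h0, zero_mul, zero_add]
            rw [← h6, he]
          rintro f' hf' g hg' (hfg : fv f' z = fv g z)
          rcases hf' with rfl | hf' <;> rcases hg' with rfl | hg'
          · rfl
          · exact (hA g hg' hfg.symm).symm
          · exact hA f' hf' hfg
          · exact hf.1 hf' hg' hfg
        · intro g hg
          rw [view, mem_forms, fo_ans, hfm] at hg
          rcases hg with hg | hg
          · intro hW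
            have hg' : g = τ.symm x := congrArg Prod.snd hg
            rw [hps, ← hg', mem_sdiff] at hcl
            push Not at hcl
            rw [← hg'] at hnb
            exact hnb (hcl hW)
          · exact hf.2 g hg
        · intro f' hfm'
          rw [view, mem_forms, fo_ans, hfm] at hfm'
          rcases hfm' with rfl | hfm'
          · unfold Par.heavy
            rw [mem_filter]
            intro h
            exact h.2.2.1 rfl
          · exact hn f' hfm'
  exact h1 (key P.T le_rfl).1 hacc.2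

open Classical in
/-- the number of coincidences with `R` through the form `f`, if it is light -/
noncomputable def gl (P : Par K L) (R : Finset K) (σ : K ≃ L) (f : K × K) : ℝ :=
  if f.1 ≠ 0 ∧ P.freq R σ f ≤ P.θ then ∑ x ∈ R, (#{z ∈ P.X | fv f z = x} : ℝ) else 0

theorem gl_nonneg (P : Par K L) (R : Finset K) (σ : K ≃ L) (f : K × K) : 0 ≤ gl P R σ f := by
  unfold gl
  split_ifs
  · exact sum_nonneg fun x _ => Nat.cast_nonneg _
  · exact le_rfl

open Classical in
omit [Fintype K] in
/-- two different forms agree at at most one number -/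
theorem card_eq_le_one (S : Finset K) {f h : K × K} (hne : h ≠ f) :
    #{z ∈ S | fv h z = fv f z} ≤ 1 := by
  rw [card_le_one]
  intro z hz z' hz'
  rw [mem_filter] at hz hz'
  obtain ⟨-, hz⟩ := hz
  obtain ⟨-, hz'⟩ := hz'
  unfold fv at hz hz'
  have h1 : (h.1 - f.1) * (z - z') = 0 := by linear_combination hz - hz'
  rcases mul_eq_zero.1 h1 with h2 | h2
  · exfalso
    have h3 : h.1 = f.1 := sub_eq_zero.1 h2
    rw [h3] at hz
    exact hne (Prod.ext h3 (add_left_cancel hz))
  · exact sub_eq_zero.1 h2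

open Classical in
theorem card_phiC_le (P : Par K L) {R D : Finset K} (σ : K ≃ L)
    (hHX : P.H ⊆ P.X)
    (hdisj : ∀ z ∈ P.X, ∀ z' ∈ P.X, z ≠ z' → Disjoint (P.blk z) (P.blk z'))
    (hinv : ∀ z ∈ P.H \ D, Disjoint (P.blk z) R) (l : List (L ⊕ K)) (e : L ⊕ K) :
    (#{z ∈ P.H \ D | PhiC P R σ z l} : ℝ) ≤ l.length + 1 + gl P R σ (fo (P.ask l) e) := by
  rcases hr : P.ask l with f | x
  swap
  · have h0 : ({z ∈ P.H \ D | PhiC P R σ z l} : Finset K) = ∅ := by
      refine filter_eq_empty_iff.2 ?_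
      rintro z - ⟨-, -, f, hf, -⟩
      rw [hr] at hf
      cases hf
    rw [h0, card_empty]
    have := gl_nonneg P R σ (fo (Sum.inr x) e)
    push_cast
    positivity
  show (#{z ∈ P.H \ D | PhiC P R σ z l} : ℝ) ≤ l.length + 1 + gl P R σ f
  set A : Finset K := {z ∈ P.H \ D | ∃ h ∈ forms P.ask l, h ≠ f ∧ fv h z = fv f z} with hA
  set B : Finset K := {z ∈ P.H \ D | ∃ g ∈ P.blk z, f = (0, g)} with hB
  set C : Finset K := {z ∈ P.H \ D | f ∉ P.heavy R σ ∧ ∃ h ∈ Rc R, h ≠ f ∧ fv h z = fv f z}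
    with hC
  have hsub : ({z ∈ P.H \ D | PhiC P R σ z l} : Finset K) ⊆ A ∪ B ∪ C := by
    intro z hz
    rw [mem_filter] at hz
    obtain ⟨hzH, -, -, f', hf', hh, hcase⟩ := hz
    rw [hr] at hf'
    have hff : f' = f := (Sum.inl.inj hf').symm
    subst hff
    simp only [hA, hB, hC, mem_union, mem_filter]
    rcases hcase with ⟨h, hh1, hh2, hh3⟩ | hg
    · rcases hh1 with hh1 | hh1
      · exact Or.inl (Or.inl ⟨hzH, h, hh1, hh2, hh3⟩)
      · exact Or.inr ⟨hzH, hh, h, hh1, hh2, hh3⟩
    · exact Or.inl (Or.inr ⟨hzH, hg⟩)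
  have hAc : #A ≤ l.length := by
    have h1 : A ⊆ ((forms P.ask l).filter fun h => h ≠ f).biUnion
        fun h => {z ∈ P.H \ D | fv h z = fv f z} := by
      intro z hz
      rw [hA, mem_filter] at hz
      obtain ⟨hz1, h, h2, h3, h4⟩ := hz
      rw [mem_biUnion]
      exact ⟨h, mem_filter.2 ⟨h2, h3⟩, mem_filter.2 ⟨hz1, h4⟩⟩
    refine (card_le_card h1).trans ?_
    refine card_biUnion_le.trans ?_
    refine (sum_le_card_nsmul _ _ 1 ?_).trans ?_
    · intro h hh
      rw [mem_filter] at hh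
      exact card_eq_le_one _ hh.2
    · rw [smul_eq_mul, mul_one]
      exact (card_filter_le _ _).trans (card_forms_le _ _)
  have hBc : #B ≤ 1 := by
    rw [card_le_one]
    intro z hz z' hz'
    rw [hB, mem_filter] at hz hz'
    obtain ⟨h1, g, h2, h3⟩ := hz
    obtain ⟨h1', g', h2', h3'⟩ := hz'
    by_contra hne
    rw [h3] at h3'
    have hgg : g = g' := congrArg Prod.snd h3'
    subst hgg
    exact disjoint_left.1 (hdisj z (hHX (mem_sdiff.1 h1).1) z' (hHX (mem_sdiff.1 h1').1) hne) h2 h2'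
  have hCc : (#C : ℝ) ≤ gl P R σ f := by
    rcases C.eq_empty_or_nonempty with hCe | ⟨z, hz⟩
    · rw [hCe]
      simpa using gl_nonneg P R σ f
    · have hz' := hz
      rw [hC, mem_filter] at hz'
      obtain ⟨hz1, hh, h, hR, hne, he⟩ := hz'
      have hf1 : f.1 ≠ 0 := by
        intro h0
        apply hne
        have hh1 : h.1 = 0 := hR.1
        refine Prod.ext (hh1.trans h0.symm) ?_
        unfold fv at he
        rw [hh1, h0] at he
        simpa using he
      have hmem : ∀ z ∈ C, fv f z ∈ R := by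
        intro z hz
        rw [hC, mem_filter] at hz
        obtain ⟨-, -, h, hR, -, he⟩ := hz
        rw [← he]
        have hh1 : h.1 = 0 := hR.1
        unfold fv
        rw [hh1, zero_mul, zero_add]
        exact hR.2
      have hfQ : f ∉ P.Q := by
        intro hfQ
        have hb : fv f z ∈ P.blk z := mem_image.2 ⟨f, hfQ, rfl⟩
        exact Finset.disjoint_left.1 (hinv z hz1) hb (hmem z hz)
      have hθ : P.freq R σ f ≤ P.θ := by
        by_contra hcon
        push Not at hcon
        apply hh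
        unfold Par.heavy
        rw [mem_filter]
        exact ⟨mem_univ _, hfQ, hf1, hcon⟩
      unfold gl
      rw [if_pos ⟨hf1, hθ⟩]
      have h1 : C ⊆ R.biUnion fun x => {z ∈ P.X | fv f z = x} := by
        intro z hz
        rw [mem_biUnion]
        refine ⟨fv f z, hmem z hz, mem_filter.2 ⟨?_, rfl⟩⟩
        rw [hC, mem_filter] at hz
        exact hHX (mem_sdiff.1 hz.1).1
      have h2 := (card_le_card h1).trans card_biUnion_le
      exact_mod_cast h2
  have h1 : #{z ∈ P.H \ D | PhiC P R σ z l} ≤ #A + #B + #C :=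
    (card_le_card hsub).trans ((card_union_le _ _).trans (Nat.add_le_add_right (card_union_le _ _) _))
  have h2 : (#{z ∈ P.H \ D | PhiC P R σ z l} : ℝ) ≤ #A + #B + #C := by exact_mod_cast h1
  have h3 : (#A : ℝ) ≤ l.length := by exact_mod_cast hAc
  have h4 : (#B : ℝ) ≤ 1 := by exact_mod_cast hBc
  linarith

omit [Field K] in
theorem ext_pos (R : Finset K) (σ : K ≃ L) : (0 : ℝ) < #(ext R σ) := by
  have : σ ∈ ext R σ := by simp [ext]
  exact_mod_cast card_pos.2 ⟨σ, this⟩

open Classical in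
theorem sum_phiH_le (P : Par K L) (R : Finset K) (σ : K ≃ L) (z w : K) :
    ∑ k ∈ range P.T, (#((ext R σ).filter fun τ : K ≃ L =>
      PhiH P R σ z (view P.ask τ w k) ∧ clean P.ask P.W τ w k) : ℝ) ≤
      #{τ ∈ ext R σ | P.bad R σ τ w} := by
  set A : ℕ → Finset (K ≃ L) := fun k => (ext R σ).filter fun τ : K ≃ L =>
    PhiH P R σ z (view P.ask τ w k) ∧ clean P.ask P.W τ w k with hA
  have hfm : ∀ (k : ℕ) (τ : K ≃ L), PhiH P R σ z (view P.ask τ w k) →
      fm P.ask τ w k ∈ P.heavy R σ := by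
    rintro k τ ⟨-, -, f, hf, hr⟩
    unfold fm
    rw [hr]
    exact hf
  have h1 : ∑ k ∈ range P.T, #(A k) = #((range P.T).biUnion A) := by
    rw [card_biUnion]
    have aux : ∀ k k' : ℕ, k < k' → Disjoint (A k) (A k') := by
      intro k k' hkk
      rw [Finset.disjoint_left]
      intro τ h1 h2
      simp only [hA, mem_filter] at h1 h2
      exact h2.2.1.2.1 _ (fm_mem_forms_view P.ask τ w hkk) (hfm k τ h1.2.1)
    intro k _ k' _ hne
    rcases lt_or_gt_of_ne hne with h | h
    · exact aux k k' h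
    · exact (aux k' k h).symm
  have h2 : #((range P.T).biUnion A) ≤ #{τ ∈ ext R σ | P.bad R σ τ w} := by
    refine card_le_card ?_
    intro τ hτ
    rw [mem_biUnion] at hτ
    obtain ⟨k, hk, hτ⟩ := hτ
    simp only [hA, mem_filter] at hτ
    rw [mem_filter]
    exact ⟨hτ.1, Or.inr ⟨k, mem_range.1 hk, hτ.2.2, hfm k τ hτ.2.1⟩⟩
  rw [← h1] at h2
  exact_mod_cast h2

open Classical in
theorem light_eq (P : Par K L) (R : Finset K) (σ : K ≃ L) :
    P.light R σ = ∑ f : K × K, P.freq R σ f * gl P R σ f := by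
  unfold Par.light
  rw [sum_comm, sum_filter]
  refine sum_congr rfl fun f _ => ?_
  unfold gl
  split_ifs with h
  · rw [mul_sum]
  · rw [mul_zero]

open Classical in
theorem sum_gl (P : Par K L) (R : Finset K) (σ : K ≃ L) :
    ∑ w : K, ∑ τ ∈ ext R σ, ∑ k ∈ range P.T,
      (if clean P.ask P.W τ w k then gl P R σ (fm P.ask τ w k) else 0) =
      Fintype.card K * #(ext R σ) * P.light R σ := by
  have hp : (0 : ℝ) < Fintype.card K := by exact_mod_cast Fintype.card_pos
  have he := ext_pos R σ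
  rw [light_eq, mul_sum]
  have h1 : ∀ f : K × K, (Fintype.card K : ℝ) * #(ext R σ) * (P.freq R σ f * gl P R σ f) =
      ∑ w : K, ∑ τ ∈ ext R σ, ∑ k ∈ range P.T,
        (if clean P.ask P.W τ w k ∧ fm P.ask τ w k = f then gl P R σ f else 0) := by
    intro f
    unfold Par.freq
    have h2 : ∀ w : K, ∀ τ : K ≃ L, (#{k ∈ range P.T | clean P.ask P.W τ w k ∧
        fm P.ask τ w k = f} : ℝ) * gl P R σ f = ∑ k ∈ range P.T,
        (if clean P.ask P.W τ w k ∧ fm P.ask τ w k = f then gl P R σ f else 0) := by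
      intro w τ
      rw [← sum_filter, sum_const, nsmul_eq_mul]
    rw [← mul_assoc, mul_div_cancel₀ _ (mul_pos hp he).ne', sum_mul]
    refine sum_congr rfl fun w _ => ?_
    rw [sum_mul]
    exact sum_congr rfl fun τ _ => h2 w τ
  rw [sum_congr rfl fun f _ => h1 f]
  have h3 : ∀ (w : K) (τ : K ≃ L) (k : ℕ),
      (if clean P.ask P.W τ w k then gl P R σ (fm P.ask τ w k) else 0) =
      ∑ f : K × K, (if clean P.ask P.W τ w k ∧ fm P.ask τ w k = f then gl P R σ f else 0) := by
    intro w τ k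
    by_cases hc : clean P.ask P.W τ w k
    · simp [hc]
    · simp [hc]
  calc ∑ w : K, ∑ τ ∈ ext R σ, ∑ k ∈ range P.T,
        (if clean P.ask P.W τ w k then gl P R σ (fm P.ask τ w k) else 0)
      = ∑ w : K, ∑ τ ∈ ext R σ, ∑ k ∈ range P.T, ∑ f : K × K,
        (if clean P.ask P.W τ w k ∧ fm P.ask τ w k = f then gl P R σ f else 0) :=
        sum_congr rfl fun w _ => sum_congr rfl fun τ _ => sum_congr rfl fun k _ => h3 w τ k
    _ = ∑ w : K, ∑ τ ∈ ext R σ, ∑ f : K × K, ∑ k ∈ range P.T,
        (if clean P.ask P.W τ w k ∧ fm P.ask τ w k = f then gl P R σ f else 0) :=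
        sum_congr rfl fun w _ => sum_congr rfl fun τ _ => sum_comm
    _ = ∑ w : K, ∑ f : K × K, ∑ τ ∈ ext R σ, ∑ k ∈ range P.T,
        (if clean P.ask P.W τ w k ∧ fm P.ask τ w k = f then gl P R σ f else 0) :=
        sum_congr rfl fun w _ => sum_comm
    _ = _ := sum_comm

open Classical in
theorem sum_phiC_le (P : Par K L) {R D : Finset K} (σ : K ≃ L) (hHX : P.H ⊆ P.X)
    (hdisj : ∀ z ∈ P.X, ∀ z' ∈ P.X, z ≠ z' → Disjoint (P.blk z) (P.blk z'))
    (hinv : ∀ z ∈ P.H \ D, Disjoint (P.blk z) R) :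
    ∑ z ∈ P.H \ D, ∑ k ∈ range P.T, ∑ w : K, (#((ext R σ).filter fun τ : K ≃ L =>
      PhiC P R σ z (view P.ask τ w k) ∧ clean P.ask P.W τ w k) : ℝ) ≤
      Fintype.card K * #(ext R σ) * (P.T * (P.T + 1) + P.light R σ) := by
  set g : K → ℕ → K → (K ≃ L) → ℝ := fun z k w τ =>
    if PhiC P R σ z (view P.ask τ w k) ∧ clean P.ask P.W τ w k then 1 else 0 with hg
  have h1 : ∀ z k w, (#((ext R σ).filter fun τ : K ≃ L =>
      PhiC P R σ z (view P.ask τ w k) ∧ clean P.ask P.W τ w k) : ℝ) =
      ∑ τ ∈ ext R σ, g z k w τ := by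
    intro z k w
    rw [card_filter]
    push_cast
    rfl
  have h2 : ∀ (w : K) (τ : K ≃ L) (k : ℕ), k ∈ range P.T → ∑ z ∈ P.H \ D, g z k w τ ≤
      (P.T + 1) + (if clean P.ask P.W τ w k then gl P R σ (fm P.ask τ w k) else 0) := by
    intro w τ k hk
    by_cases hc : clean P.ask P.W τ w k
    · have h3 : ∑ z ∈ P.H \ D, g z k w τ =
          (#{z ∈ P.H \ D | PhiC P R σ z (view P.ask τ w k)} : ℝ) := by
        rw [card_filter]
        push_cast
        refine sum_congr rfl fun z _ => ?_
        simp [hg, hc]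
      rw [h3, if_pos hc]
      have h4 := card_phiC_le P σ hHX hdisj hinv (view P.ask τ w k)
        (ans (P.ask (view P.ask τ w k)) τ w)
      rw [length_view, fo_ans] at h4
      have h5 : (k : ℝ) ≤ P.T := by exact_mod_cast (mem_range.1 hk).le
      linarith
    · have h3 : ∑ z ∈ P.H \ D, g z k w τ = 0 := sum_eq_zero fun z _ => by simp [hg, hc]
      rw [h3, if_neg hc]
      positivity
  calc ∑ z ∈ P.H \ D, ∑ k ∈ range P.T, ∑ w : K, (#((ext R σ).filter fun τ : K ≃ L =>
      PhiC P R σ z (view P.ask τ w k) ∧ clean P.ask P.W τ w k) : ℝ)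
      = ∑ z ∈ P.H \ D, ∑ k ∈ range P.T, ∑ w : K, ∑ τ ∈ ext R σ, g z k w τ :=
        sum_congr rfl fun z _ => sum_congr rfl fun k _ => sum_congr rfl fun w _ => h1 z k w
    _ = ∑ k ∈ range P.T, ∑ z ∈ P.H \ D, ∑ w : K, ∑ τ ∈ ext R σ, g z k w τ := sum_comm
    _ = ∑ k ∈ range P.T, ∑ w : K, ∑ z ∈ P.H \ D, ∑ τ ∈ ext R σ, g z k w τ :=
        sum_congr rfl fun k _ => sum_comm
    _ = ∑ k ∈ range P.T, ∑ w : K, ∑ τ ∈ ext R σ, ∑ z ∈ P.H \ D, g z k w τ :=
        sum_congr rfl fun k _ => sum_congr rfl fun w _ => sum_comm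
    _ = ∑ w : K, ∑ k ∈ range P.T, ∑ τ ∈ ext R σ, ∑ z ∈ P.H \ D, g z k w τ := sum_comm
    _ = ∑ w : K, ∑ τ ∈ ext R σ, ∑ k ∈ range P.T, ∑ z ∈ P.H \ D, g z k w τ :=
        sum_congr rfl fun w _ => sum_comm
    _ ≤ ∑ w : K, ∑ τ ∈ ext R σ, ∑ k ∈ range P.T, ((P.T + 1 : ℝ) +
        (if clean P.ask P.W τ w k then gl P R σ (fm P.ask τ w k) else 0)) :=
        sum_le_sum fun w _ => sum_le_sum fun τ _ => sum_le_sum fun k hk => h2 w τ k hk
    _ = Fintype.card K * #(ext R σ) * (P.T * (P.T + 1)) +
        Fintype.card K * #(ext R σ) * P.light R σ := by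
        rw [← sum_gl]
        simp only [sum_add_distrib, sum_const, card_range, nsmul_eq_mul, card_univ]
        ring
    _ = _ := by ring

open Classical in
theorem sum_al_le (hKL : Fintype.card K = Fintype.card L) (P : Par K L) (hfr : Fresh P.ask)
    (R D : Finset K) (σ : K ≃ L) (_hQ : ∀ f ∈ P.Q, f.1 ≠ 0) (hHX : P.H ⊆ P.X)
    (hdisj : ∀ z ∈ P.X, ∀ z' ∈ P.X, z ≠ z' → Disjoint (P.blk z) (P.blk z'))
    (hinv : ∀ z ∈ P.H \ D, Disjoint (P.blk z) R)
    (hB : 2 * (P.T * (P.T + #R + #P.W)) ≤ Fintype.card K)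
    (hB2 : 2 * (P.T * (#P.H * #P.Q)) ≤ Fintype.card K) :
    ∑ z ∈ P.H \ D, P.al R σ z ≤
      2 * (2 * P.b R σ * #P.H + P.T * (P.T + 1) + P.light R σ) + 1 := by
  have hp : (0 : ℝ) < Fintype.card K := by exact_mod_cast Fintype.card_pos
  have he := ext_pos R σ
  set p : ℝ := (Fintype.card K : ℝ) with hpdef
  set e : ℝ := (#(ext R σ) : ℝ) with hedef
  -- the counts
  set cA : K → ℝ := fun z => (#{τ ∈ ext R σ |
    acc P.ask P.dec P.T (P.W \ P.blk z) (τ : K ≃ L) z} : ℝ) with hcA
  set F : K → Finset (K ≃ L) := fun z => (ext R σ).filter fun τ : K ≃ L =>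
    PhiF P R z (view P.ask τ z P.T) with hF
  set AH : K → ℕ → Finset (K ≃ L) := fun z k => (ext R σ).filter fun τ : K ≃ L =>
    PhiH P R σ z (view P.ask τ z k) with hAH
  set AC : K → ℕ → Finset (K ≃ L) := fun z k => (ext R σ).filter fun τ : K ≃ L =>
    PhiC P R σ z (view P.ask τ z k) with hAC
  set AI : K → ℕ → Finset (K ≃ L) := fun z k => (ext R σ).filter fun τ : K ≃ L =>
    PhiI P τ z k with hAI
  have hsplit : ∀ z ∈ P.H \ D, cA z ≤ #(F z) + ∑ k ∈ range P.T, (#(AH z k) : ℝ) +
      ∑ k ∈ range P.T, (#(AC z k) : ℝ) + ∑ k ∈ range P.T, (#(AI z k) : ℝ) := by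
    intro z hz
    have hzW : P.blk z ⊆ P.W := by
      unfold Par.W
      exact subset_biUnion_of_mem P.blk (mem_sdiff.1 hz).1
    have h1 : ((ext R σ).filter fun τ : K ≃ L =>
        acc P.ask P.dec P.T (P.W \ P.blk z) τ z) ⊆
        F z ∪ (range P.T).biUnion (AH z) ∪ (range P.T).biUnion (AC z) ∪
          (range P.T).biUnion (AI z) := by
      intro τ hτ
      rw [mem_filter] at hτ
      simp only [hF, hAH, hAC, hAI, mem_union, mem_biUnion, mem_filter, mem_range]
      rcases acc_cases P hfr R σ τ z hzW hτ.2 with h | ⟨k, hk, h⟩ | ⟨k, hk, h⟩ | ⟨k, hk, h⟩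
      · exact Or.inl (Or.inl (Or.inl ⟨hτ.1, h⟩))
      · exact Or.inl (Or.inl (Or.inr ⟨k, hk, hτ.1, h⟩))
      · exact Or.inl (Or.inr ⟨k, hk, hτ.1, h⟩)
      · exact Or.inr ⟨k, hk, hτ.1, h⟩
    have h2 := card_le_card h1
    have h3 : #((range P.T).biUnion (AH z)) ≤ ∑ k ∈ range P.T, #(AH z k) := card_biUnion_le
    have h3c : #((range P.T).biUnion (AC z)) ≤ ∑ k ∈ range P.T, #(AC z k) := card_biUnion_le
    have h3i : #((range P.T).biUnion (AI z)) ≤ ∑ k ∈ range P.T, #(AI z k) := card_biUnion_le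
    have h5 := card_union_le (F z ∪ (range P.T).biUnion (AH z) ∪ (range P.T).biUnion (AC z))
      ((range P.T).biUnion (AI z))
    have h6 := card_union_le (F z ∪ (range P.T).biUnion (AH z)) ((range P.T).biUnion (AC z))
    have h7 := card_union_le (F z) ((range P.T).biUnion (AH z))
    have h4 : #((ext R σ).filter fun τ : K ≃ L =>
        acc P.ask P.dec P.T (P.W \ P.blk z) τ z) ≤ #(F z) + ∑ k ∈ range P.T, #(AH z k) +
        ∑ k ∈ range P.T, #(AC z k) + ∑ k ∈ range P.T, #(AI z k) := by omega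
    simp only [hcA]
    exact_mod_cast h4
  -- the inverse reads
  have hAIz : ∀ z ∈ P.H \ D, ∀ k ∈ range P.T, p / 2 * (#(AI z k) : ℝ) ≤ #P.Q * e := by
    intro z hz k hk
    have hk' := mem_range.1 hk
    have h1 := hit_count P.ask R (P.blk z) σ z k
    have h2 : AI z k ⊆ ((ext R σ).filter fun τ : K ≃ L => inv P.ask τ z k ∧
        ps P.ask τ z k ∈ P.blk z ∧ ps P.ask τ z k ∉ R ∧
          ∀ i < k, ps P.ask τ z k ≠ ps P.ask τ z i) := by
      intro τ hτ
      rw [mem_filter] at hτ ⊢
      exact ⟨hτ.1, hτ.2.1, hτ.2.2.1, Finset.disjoint_left.1 (hinv z hz) hτ.2.2.1, hτ.2.2.2⟩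
    have h3 : (#(AI z k) : ℝ) ≤ #((ext R σ).filter fun τ : K ≃ L => inv P.ask τ z k ∧
        ps P.ask τ z k ∈ P.blk z ∧ ps P.ask τ z k ∉ R ∧
          ∀ i < k, ps P.ask τ z k ≠ ps P.ask τ z i) := by
      exact_mod_cast card_le_card h2
    have h4 : 2 * (#R + k) ≤ Fintype.card K := by
      refine le_trans ?_ hB
      have h5 : 1 ≤ P.T := by omega
      nlinarith [Nat.zero_le (#P.W)]
    have h4' : (2 * (#R + k) : ℝ) ≤ p := by
      rw [hpdef]
      exact_mod_cast h4
    have h5 : p / 2 ≤ (Fintype.card K : ℝ) - (#R + k) := by linarith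
    have h6 : (#(P.blk z) : ℝ) ≤ #P.Q := by
      unfold Par.blk
      exact_mod_cast card_image_le
    calc p / 2 * (#(AI z k) : ℝ) ≤ ((Fintype.card K : ℝ) - (#R + k)) *
          (#((ext R σ).filter fun τ : K ≃ L => inv P.ask τ z k ∧
            ps P.ask τ z k ∈ P.blk z ∧ ps P.ask τ z k ∉ R ∧
              ∀ i < k, ps P.ask τ z k ≠ ps P.ask τ z i) : ℝ) := by
          exact mul_le_mul h5 h3 (Nat.cast_nonneg _) (by linarith)
      _ ≤ #(P.blk z) * e := h1
      _ ≤ #P.Q * e := mul_le_mul_of_nonneg_right h6 he.le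
  have hS4 : ∑ z ∈ P.H \ D, p / 2 * ∑ k ∈ range P.T, (#(AI z k) : ℝ) ≤ p / 2 * e := by
    calc ∑ z ∈ P.H \ D, p / 2 * ∑ k ∈ range P.T, (#(AI z k) : ℝ)
        ≤ ∑ z ∈ P.H \ D, ∑ k ∈ range P.T, (#P.Q * e : ℝ) := by
          refine sum_le_sum fun z hz => ?_
          rw [mul_sum]
          exact sum_le_sum fun k hk => hAIz z hz k hk
      _ = #(P.H \ D) * (P.T * (#P.Q * e)) := by
          simp only [sum_const, card_range, nsmul_eq_mul]
      _ ≤ #P.H * (P.T * (#P.Q * e)) := by
          have h1 : (#(P.H \ D) : ℝ) ≤ #P.H := by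
            exact_mod_cast card_le_card (sdiff_subset)
          exact mul_le_mul_of_nonneg_right h1 (by positivity)
      _ = (P.T * (#P.H * #P.Q)) * e := by ring
      _ ≤ p / 2 * e := by
          refine mul_le_mul_of_nonneg_right ?_ he.le
          have h1 : (2 * (P.T * (#P.H * #P.Q)) : ℝ) ≤ p := by
            rw [hpdef]
            exact_mod_cast hB2
          linarith
  -- comparison
  have hcmp : ∀ (z : K) (k : ℕ) (Φ : List (L ⊕ K) → Prop), k ≤ P.T →
      (∀ l : List (L ⊕ K), Φ l → Fine P R z l) →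
      p / 2 * (#((ext R σ).filter fun τ : K ≃ L => Φ (view P.ask τ z k)) : ℝ) ≤
      ∑ w : K, (#((ext R σ).filter fun τ : K ≃ L =>
        Φ (view P.ask τ w k) ∧ clean P.ask P.W τ w k) : ℝ) := by
    intro z k Φ hk hΦ
    refine le_trans ?_ (compare hKL P.ask R P.W σ z k Φ fun l _ hl => hΦ l hl)
    refine mul_le_mul_of_nonneg_right ?_ (Nat.cast_nonneg _)
    have h1 : 2 * (k * (k + #R + #P.W)) ≤ Fintype.card K := by
      refine le_trans ?_ hB
      gcongr
    have h2 : (2 * (k * (k + #R + #P.W)) : ℝ) ≤ p := by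
      rw [hpdef]
      exact_mod_cast h1
    linarith
  have hS1 : ∀ z, p / 2 * (#(F z) : ℝ) ≤ P.b R σ * p * e := by
    intro z
    have h1 := hcmp z P.T (fun l => PhiF P R z l) le_rfl fun l h => h.1
    refine h1.trans ?_
    have h2 : P.b R σ * p * e = ∑ w : K, (#{τ ∈ ext R σ | P.bad R σ τ w} : ℝ) := by
      unfold Par.b
      rw [mul_assoc, div_mul_cancel₀ _ (mul_pos hp he).ne']
    rw [h2]
    refine sum_le_sum fun w _ => ?_
    have h3 : ((ext R σ).filter fun τ : K ≃ L => PhiF P R z (view P.ask τ w P.T) ∧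
          clean P.ask P.W τ w P.T) ⊆ {τ ∈ ext R σ | P.bad R σ τ w} := by
      intro τ hτ
      rw [mem_filter] at hτ ⊢
      exact ⟨hτ.1, Or.inl ⟨hτ.2.2, hτ.2.1.2⟩⟩
    exact_mod_cast card_le_card h3
  have hS2 : ∀ z, p / 2 * ∑ k ∈ range P.T, (#(AH z k) : ℝ) ≤ P.b R σ * p * e := by
    intro z
    have h2 : P.b R σ * p * e = ∑ w : K, (#{τ ∈ ext R σ | P.bad R σ τ w} : ℝ) := by
      unfold Par.b
      rw [mul_assoc, div_mul_cancel₀ _ (mul_pos hp he).ne']
    rw [h2, mul_sum]
    refine (sum_le_sum fun k hk => hcmp z k (fun l => PhiH P R σ z l)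
      (mem_range.1 hk).le fun l h => h.1).trans ?_
    rw [sum_comm]
    exact sum_le_sum fun w _ => sum_phiH_le P R σ z w
  have hS3 : ∑ z ∈ P.H \ D, p / 2 * ∑ k ∈ range P.T, (#(AC z k) : ℝ) ≤
      p * e * (P.T * (P.T + 1) + P.light R σ) := by
    refine le_trans (sum_le_sum fun z _ => ?_) (sum_phiC_le P σ hHX hdisj hinv)
    rw [mul_sum]
    exact sum_le_sum fun k hk => hcmp z k (fun l => PhiC P R σ z l)
      (mem_range.1 hk).le fun l h => h.1
  -- summation
  have hb0 : 0 ≤ P.b R σ := by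
    unfold Par.b
    exact div_nonneg (sum_nonneg fun w _ => Nat.cast_nonneg _) (by positivity)
  have htot : p / 2 * ∑ z ∈ P.H \ D, cA z ≤
      p * e * (2 * P.b R σ * #P.H + P.T * (P.T + 1) + P.light R σ) + p / 2 * e := by
    rw [mul_sum]
    calc ∑ z ∈ P.H \ D, p / 2 * cA z
        ≤ ∑ z ∈ P.H \ D, (2 * (P.b R σ * p * e) +
          p / 2 * ∑ k ∈ range P.T, (#(AC z k) : ℝ) +
          p / 2 * ∑ k ∈ range P.T, (#(AI z k) : ℝ)) := by
          refine sum_le_sum fun z hz => ?_
          have h1 := mul_le_mul_of_nonneg_left (hsplit z hz) (by positivity : 0 ≤ p / 2)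
          have h2 := hS1 z
          have h3 := hS2 z
          linarith
      _ = #(P.H \ D) * (2 * (P.b R σ * p * e)) +
          ∑ z ∈ P.H \ D, p / 2 * ∑ k ∈ range P.T, (#(AC z k) : ℝ) +
          ∑ z ∈ P.H \ D, p / 2 * ∑ k ∈ range P.T, (#(AI z k) : ℝ) := by
          rw [sum_add_distrib, sum_add_distrib, sum_const, nsmul_eq_mul]
      _ ≤ #P.H * (2 * (P.b R σ * p * e)) + p * e * (P.T * (P.T + 1) + P.light R σ) +
          p / 2 * e := by
          have h1 : (#(P.H \ D) : ℝ) ≤ #P.H := by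
            exact_mod_cast card_le_card (sdiff_subset)
          have h2 : 0 ≤ 2 * (P.b R σ * p * e) := by positivity
          have h3 := mul_le_mul_of_nonneg_right h1 h2
          linarith
      _ = _ := by ring
  have hal : ∑ z ∈ P.H \ D, P.al R σ z = (∑ z ∈ P.H \ D, cA z) / e := by
    rw [sum_div]
    rfl
  rw [hal, div_le_iff₀ he]
  have h5 : p * (∑ z ∈ P.H \ D, cA z) ≤
      p * ((2 * (2 * P.b R σ * #P.H + P.T * (P.T + 1) + P.light R σ) + 1) * e) := by
    linarith
  exact le_of_mul_le_mul_left h5 hp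

end Pool.Agent.GGF
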