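import Mathlib
import Pool.Agent.GGF.Lt

/-! The coincidences through forms of small frequency. -/

namespace Pool.Agent.GGF

open Finset

variable {K L : Type} [Field K] [Fintype K] [Fintype L] [DecidableEq K] [DecidableEq L]

theorem freq_nonneg (P : Par K L) (R : Finset K) (σ : K ≃ L) (f : K × K) :
    0 ≤ P.freq R σ f := by
  unfold Par.freq; positivity

theorem self_mem_ext (R : Finset K) (σ : K ≃ L) : σ ∈ ext R σ := by simp [ext]

theorem sum_freq_le (P : Par K L) (R : Finset K) (σ : K ≃ L) :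
    ∑ f : K × K, P.freq R σ f ≤ P.T := by
  classical
  have hpos : (0 : ℝ) < Fintype.card K * #(ext R σ) := by
    have h1 : 0 < #(ext R σ) := card_pos.2 ⟨σ, self_mem_ext R σ⟩
    have h2 : 0 < Fintype.card K := Fintype.card_pos
    positivity
  unfold Par.freq
  rw [← sum_div, div_le_iff₀ hpos, sum_comm]
  calc ∑ w : K, ∑ f : K × K, ∑ τ ∈ ext R σ,
        (#{k ∈ range P.T | clean P.ask P.W τ w k ∧ fm P.ask τ w k = f} : ℝ)
      ≤ ∑ w : K, ∑ τ ∈ ext R σ, (P.T : ℝ) := by
        apply sum_le_sum; intro w _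
        rw [sum_comm]
        apply sum_le_sum; intro τ _
        rw [← Nat.cast_sum, Nat.cast_le]
        have h := card_eq_sum_card_fiberwise (s := (range P.T).filter fun k =>
            clean P.ask P.W τ w k) (t := (univ : Finset (K × K))) (f := fun k => fm P.ask τ w k)
          (fun _ _ => by simp)
        calc ∑ f : K × K, #{k ∈ range P.T | clean P.ask P.W τ w k ∧ fm P.ask τ w k = f}
            = ∑ f : K × K, #{k ∈ (range P.T).filter fun k => clean P.ask P.W τ w k |
                fm P.ask τ w k = f} := by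
              apply sum_congr rfl; intro f _
              rw [filter_filter]
          _ = #((range P.T).filter fun k => clean P.ask P.W τ w k) := by
              rw [h]
          _ ≤ P.T := by
              refine (card_filter_le _ _).trans ?_
              simp
    _ = P.T * (Fintype.card K * #(ext R σ)) := by
        simp only [sum_const, card_univ, nsmul_eq_mul]; ring

theorem cs_sum {ι : Type*} (s : Finset ι) (a : ι → ℝ) :
    (∑ x ∈ s, a x) ^ 2 ≤ #s * ∑ x ∈ s, a x ^ 2 := sq_sum_le_card_mul_sum_sq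

open Classical in
theorem light_le (P : Par K L) (R : Finset K) (σ : K ≃ L) (C : ℝ) (hC0 : 0 ≤ C)
    (hC : ∀ f f' : K × K, f ≠ f' → f.1 ≠ 0 → f'.1 ≠ 0 →
      (#{q ∈ P.X ×ˢ P.X | fv f q.1 = fv f' q.2} : ℝ) ≤ C) (hθ : 0 ≤ P.θ) :
    P.light R σ ≤ Real.sqrt (#R * (P.θ * P.T * #P.X + C * P.T ^ 2)) := by
  set Lf : Finset (K × K) := (univ : Finset (K × K)).filter
    fun f => f.1 ≠ 0 ∧ P.freq R σ f ≤ P.θ with hLf
  set fr : K × K → ℝ := P.freq R σ with hfr
  have hfr0 : ∀ f, 0 ≤ fr f := fun f => freq_nonneg P R σ f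
  have hsum : ∑ f ∈ Lf, fr f ≤ P.T :=
    (sum_le_univ_sum_of_nonneg hfr0).trans (sum_freq_le P R σ)
  have hsum0 : 0 ≤ ∑ f ∈ Lf, fr f := sum_nonneg fun f _ => hfr0 f
  set N : K × K → K → ℝ := fun f x => (#{z ∈ P.X | fv f z = x} : ℝ) with hN
  have hN0 : ∀ f x, 0 ≤ N f x := fun f x => by simp [hN]
  set a : K → ℝ := fun x => ∑ f ∈ Lf, fr f * N f x with ha
  have hlight : P.light R σ = ∑ x ∈ R, a x := rfl
  rw [hlight]
  apply Real.le_sqrt_of_sq_le
  refine (cs_sum R a).trans ?_
  apply mul_le_mul_of_nonneg_left _ (by positivity)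
  have h1 : ∑ x ∈ R, a x ^ 2 ≤ ∑ x : K, a x ^ 2 :=
    sum_le_univ_sum_of_nonneg fun x => sq_nonneg _
  refine h1.trans ?_
  -- the number of coincidences of two forms
  have hpair : ∀ f f' : K × K, ∑ x : K, N f x * N f' x =
      (#{q ∈ P.X ×ˢ P.X | fv f q.1 = fv f' q.2} : ℝ) := by
    intro f f'
    have h := card_eq_sum_card_fiberwise (s := (P.X ×ˢ P.X).filter
        fun q => fv f q.1 = fv f' q.2) (t := (univ : Finset K)) (f := fun q => fv f q.1)
      (fun _ _ => by simp)
    rw [h, Nat.cast_sum]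
    apply sum_congr rfl; intro x _
    rw [hN]
    simp only
    rw [← Nat.cast_mul, ← card_product, ← filter_product, filter_filter]
    congr 2
    ext ⟨z, z'⟩
    simp only [mem_filter, mem_product]
    constructor
    · rintro ⟨⟨h1, h2⟩, h3, h4⟩
      exact ⟨⟨h1, h2⟩, by rw [h3, h4], h3⟩
    · rintro ⟨⟨h1, h2⟩, h3, h4⟩
      exact ⟨⟨h1, h2⟩, h4, by rw [← h3, h4]⟩
  have hdiag : ∀ f : K × K, f.1 ≠ 0 →
      (#{q ∈ P.X ×ˢ P.X | fv f q.1 = fv f q.2} : ℝ) ≤ #P.X := by
    intro f hf
    rw [Nat.cast_le]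
    apply card_le_card_of_injOn (fun q => q.1)
    · intro q hq
      have := mem_filter.1 (mem_coe.1 hq)
      exact mem_coe.2 (mem_product.1 this.1).1
    · intro q hq q' hq' he
      have h1 := (mem_filter.1 (mem_coe.1 hq)).2
      have h2 := (mem_filter.1 (mem_coe.1 hq')).2
      have he' : q.1 = q'.1 := he
      have hinj : ∀ u v : K, fv f u = fv f v → u = v := by
        intro u v huv
        simp only [fv, add_left_inj] at huv
        exact mul_left_cancel₀ hf huv
      have h3 := hinj _ _ h1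
      have h4 := hinj _ _ h2
      exact Prod.ext he' (by rw [← h3, ← h4, he'])
  calc ∑ x : K, a x ^ 2
      = ∑ f ∈ Lf, ∑ f' ∈ Lf, fr f * fr f' *
          (#{q ∈ P.X ×ˢ P.X | fv f q.1 = fv f' q.2} : ℝ) := by
        have : ∀ x : K, a x ^ 2 = ∑ f ∈ Lf, ∑ f' ∈ Lf, fr f * fr f' * (N f x * N f' x) := by
          intro x
          rw [ha, sq, sum_mul_sum]
          apply sum_congr rfl; intro f _
          apply sum_congr rfl; intro f' _
          ring
        rw [sum_congr rfl fun x _ => this x, sum_comm]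
        apply sum_congr rfl; intro f _
        rw [sum_comm]
        apply sum_congr rfl; intro f' _
        rw [← mul_sum, hpair]
    _ ≤ ∑ f ∈ Lf, ∑ f' ∈ Lf, (fr f * fr f' * C + if f = f' then fr f * fr f' * #P.X else 0) := by
        apply sum_le_sum; intro f hf
        apply sum_le_sum; intro f' hf'
        have hf1 : f.1 ≠ 0 := (mem_filter.1 hf).2.1
        have hf1' : f'.1 ≠ 0 := (mem_filter.1 hf').2.1
        have h0 : 0 ≤ fr f * fr f' := mul_nonneg (hfr0 f) (hfr0 f')
        by_cases h : f = f'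
        · subst h
          rw [if_pos rfl]
          have := mul_le_mul_of_nonneg_left (hdiag f hf1) h0
          have h2 : 0 ≤ fr f * fr f * C := mul_nonneg h0 hC0
          linarith
        · rw [if_neg h, add_zero]
          exact mul_le_mul_of_nonneg_left (hC f f' h hf1 hf1') h0
    _ = (∑ f ∈ Lf, fr f) ^ 2 * C + (∑ f ∈ Lf, fr f * fr f) * #P.X := by
        simp only [sum_add_distrib]
        congr 1
        · rw [sq, sum_mul_sum, sum_mul]
          apply sum_congr rfl; intro f _
          rw [sum_mul]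
        · rw [sum_mul]
          apply sum_congr rfl; intro f hf
          rw [sum_ite_eq, if_pos hf]
    _ ≤ P.θ * P.T * #P.X + C * P.T ^ 2 := by
        have h2 : ∑ f ∈ Lf, fr f * fr f ≤ P.θ * P.T := by
          calc ∑ f ∈ Lf, fr f * fr f ≤ ∑ f ∈ Lf, P.θ * fr f := by
                apply sum_le_sum; intro f hf
                exact mul_le_mul_of_nonneg_right (mem_filter.1 hf).2.2 (hfr0 f)
            _ = P.θ * ∑ f ∈ Lf, fr f := by rw [mul_sum]
            _ ≤ P.θ * P.T := mul_le_mul_of_nonneg_left hsum hθ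
        have h3 : (∑ f ∈ Lf, fr f) ^ 2 ≤ (P.T : ℝ) ^ 2 := pow_le_pow_left₀ hsum0 hsum 2
        have h4 : (∑ f ∈ Lf, fr f) ^ 2 * C ≤ (P.T : ℝ) ^ 2 * C :=
          mul_le_mul_of_nonneg_right h3 hC0
        have h5 : (∑ f ∈ Lf, fr f * fr f) * #P.X ≤ P.θ * P.T * #P.X :=
          mul_le_mul_of_nonneg_right h2 (by positivity)
        linarith

end Pool.Agent.GGF
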