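import Pool.Agent.GGF.Beta
import Pool.Agent.GGF.Stp
import Pool.Agent.GGF.Pok

/-! The expected logarithm of the product of the factors, for a good labelling. -/

namespace Pool.Agent.GGF

open Finset

variable {K L : Type} [Field K] [Fintype K] [Fintype L] [DecidableEq K] [DecidableEq L]

/-- the invariant of the states, `j` steps before the end -/
structure Inv (P : Par K L) (N : ℕ) (j : ℕ) (s : Par.St K) : Prop where
  sub : s.2 ⊆ P.H
  dis : ∀ z ∈ P.H \ s.2, Disjoint (P.blk z) s.1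
  card : #s.1 + j * P.T ≤ N

theorem blk_sub (P : Par K L) {z : K} (hz : z ∈ P.H) : P.blk z ⊆ P.W :=
  subset_biUnion_of_mem P.blk hz

theorem sp_sub (P : Par K L) (B : Finset K) : P.sp B ⊆ P.H := filter_subset _ _

theorem inv_step (P : Par K L) {N j : ℕ}
    {s : Par.St K} (h : Inv P N (j + 1) s) (ω : P.Om) (σ : K ≃ L) :
    Inv P N j (P.step ω s σ) := by
  have hc := h.card
  have hcT : (j + 1) * P.T = j * P.T + P.T := by ring
  -- the blocks which are not met by the numbers revealed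
  have hd : ∀ (B : Finset K) (z : K), z ∈ P.H → z ∉ s.2 → z ∉ P.sp B →
      Disjoint (P.blk z) (s.1 ∪ B) := by
    intro B z hz1 hz2 hz3
    rw [disjoint_union_right]
    refine ⟨h.dis z (mem_sdiff.2 ⟨hz1, hz2⟩), ?_⟩
    by_contra hcon
    exact hz3 (mem_filter.2 ⟨hz1, hcon⟩)
  unfold Par.step
  split_ifs with h1 h2
  · obtain ⟨hz1, hz2⟩ := mem_sdiff.1 h2
    refine ⟨?_, ?_, ?_⟩
    · exact insert_subset hz1 (union_subset h.sub (sp_sub P _))
    · intro z hz
      obtain ⟨hz3, hz4⟩ := mem_sdiff.1 hz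
      have hz5 : z ∉ s.2 ∧ z ∉ P.sp (reads P.ask P.T (P.W \ P.blk ω.2.1) σ ω.2.1) := by
        rw [← not_or, ← mem_union]
        exact fun h => hz4 (mem_insert_of_mem h)
      exact hd _ z hz3 hz5.1 hz5.2
    · have h3 : #(s.1 ∪ reads P.ask P.T (P.W \ P.blk ω.2.1) σ ω.2.1) ≤ #s.1 + P.T :=
        (card_union_le _ _).trans (Nat.add_le_add_left card_reads_le _)
      show #(s.1 ∪ reads P.ask P.T (P.W \ P.blk ω.2.1) σ ω.2.1) + j * P.T ≤ N
      omega
  · exact ⟨h.sub, h.dis, by omega⟩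
  · refine ⟨union_subset h.sub (sp_sub P _), ?_, ?_⟩
    · intro z hz
      obtain ⟨hz3, hz4⟩ := mem_sdiff.1 hz
      have hz5 : z ∉ s.2 ∧ z ∉ P.sp (reads P.ask P.T P.W σ ω.2.2) := by
        rw [← not_or, ← mem_union]
        exact hz4
      exact hd _ z hz3 hz5.1 hz5.2
    · have h3 : #(s.1 ∪ reads P.ask P.T P.W σ ω.2.2) ≤ #s.1 + P.T :=
        (card_union_le _ _).trans (Nat.add_le_add_left card_reads_le _)
      show #(s.1 ∪ reads P.ask P.T P.W σ ω.2.2) + j * P.T ≤ N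
      omega

open Classical in
/-- a run on a random number spoils at most one block, and only if there is a hit -/
theorem card_sp_w (P : Par K L) (hHX : P.H ⊆ P.X)
    (hdisj : ∀ z ∈ P.X, ∀ z' ∈ P.X, z ≠ z' → Disjoint (P.blk z) (P.blk z'))
    {R D : Finset K} (hinv : ∀ z ∈ P.H \ D, Disjoint (P.blk z) R) (σ : K ≃ L) (w : K) :
    (#(D ∪ P.sp (reads P.ask P.T P.W σ w)) : ℝ) ≤
      #D + (if hit P.ask P.T P.W R σ w then 1 else 0) := by
  set B := reads P.ask P.T P.W σ w with hB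
  have h1 : #(P.sp B) ≤ 1 := by
    rw [card_le_one]
    intro z hz z' hz'
    obtain ⟨hzH, hz⟩ := mem_filter.1 hz
    obtain ⟨hzH', hz'⟩ := mem_filter.1 hz'
    obtain ⟨x, hx, hxB⟩ := not_disjoint_iff.1 hz
    obtain ⟨x', hx', hxB'⟩ := not_disjoint_iff.1 hz'
    by_contra hne
    have h2 : x = x' := reads_unique hxB hxB' (blk_sub P hzH hx) (blk_sub P hzH' hx')
    rw [← h2] at hx'
    exact disjoint_left.1 (hdisj z (hHX hzH) z' (hHX hzH') hne) hx hx'
  split_ifs with hh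
  · have := (card_union_le D (P.sp B)).trans (Nat.add_le_add_left h1 _)
    exact_mod_cast this
  · have h2 : P.sp B ⊆ D := by
      intro z hz
      obtain ⟨hzH, hz⟩ := mem_filter.1 hz
      obtain ⟨x, hx, hxB⟩ := not_disjoint_iff.1 hz
      have hxR : x ∈ R := by
        by_contra hxR
        exact hh (hit_of_mem hxB (blk_sub P hzH hx) hxR)
      by_contra hzD
      exact disjoint_left.1 (hinv z (mem_sdiff.2 ⟨hzH, hzD⟩)) hx hxR
    rw [union_eq_left.2 h2, add_zero]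

/-- a run on a sum spoils at most one other block -/
theorem card_sp_z (P : Par K L) (hHX : P.H ⊆ P.X)
    (hdisj : ∀ z ∈ P.X, ∀ z' ∈ P.X, z ≠ z' → Disjoint (P.blk z) (P.blk z'))
    (D : Finset K) (σ : K ≃ L) {z : K} (hz : z ∈ P.H) :
    (#(insert z (D ∪ P.sp (reads P.ask P.T (P.W \ P.blk z) σ z))) : ℝ) ≤ #D + 2 := by
  set B := reads P.ask P.T (P.W \ P.blk z) σ z with hB
  have h1 : #((P.sp B).erase z) ≤ 1 := by
    rw [card_le_one]
    intro u hu u' hu'
    obtain ⟨hne, hu⟩ := mem_erase.1 hu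
    obtain ⟨hne', hu'⟩ := mem_erase.1 hu'
    obtain ⟨huH, hu⟩ := mem_filter.1 hu
    obtain ⟨huH', hu'⟩ := mem_filter.1 hu'
    obtain ⟨x, hx, hxB⟩ := not_disjoint_iff.1 hu
    obtain ⟨x', hx', hxB'⟩ := not_disjoint_iff.1 hu'
    have hF : ∀ v y, v ∈ P.H → v ≠ z → y ∈ P.blk v → y ∈ P.W \ P.blk z := fun v y hv hvz hy =>
      mem_sdiff.2 ⟨blk_sub P hv hy, disjoint_left.1 (hdisj v (hHX hv) z (hHX hz) hvz) hy⟩
    by_contra hnee
    have h2 : x = x' := reads_unique hxB hxB' (hF u x huH hne hx) (hF u' x' huH' hne' hx')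
    rw [← h2] at hx'
    exact disjoint_left.1 (hdisj u (hHX huH) u' (hHX huH') hnee) hx hx'
  have h2 : insert z (D ∪ P.sp B) ⊆ insert z (D ∪ (P.sp B).erase z) := by
    intro u hu
    rw [mem_insert, mem_union] at hu ⊢
    rw [mem_erase]
    tauto
  have h3 : #(insert z (D ∪ P.sp B)) ≤ #D + 2 := by
    refine (card_le_card h2).trans ((card_insert_le _ _).trans ?_)
    have := card_union_le D ((P.sp B).erase z)
    omega
  exact_mod_cast h3

theorem card_Om (P : Par K L) :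
    (Fintype.card P.Om : ℝ) = P.m * (#P.X * Fintype.card K) := by
  have : Fintype.card P.Om = Fintype.card (Fin P.m) * (Fintype.card P.X * Fintype.card K) := by
    show Fintype.card (Fin P.m × P.X × K) = _
    rw [Fintype.card_prod, Fintype.card_prod]
  rw [this, Fintype.card_fin, Fintype.card_coe]
  push_cast
  ring

/-- a sum over the random choices of one step -/
theorem sum_om (P : Par K L) (hm : 0 < P.m) (g h : K → ℝ) :
    ∑ ω : P.Om, (if (ω.1 : ℕ) = 0 then g ω.2.1 else h ω.2.2) =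
      Fintype.card K * ∑ z ∈ P.X, g z + ((P.m : ℝ) - 1) * (#P.X * ∑ w : K, h w) := by
  have h1 : ∀ i : Fin P.m, ∑ q : P.X × K, (if (i : ℕ) = 0 then g q.1 else h q.2) =
      if (i : ℕ) = 0 then Fintype.card K * ∑ z ∈ P.X, g z else #P.X * ∑ w : K, h w := by
    intro i
    rw [Fintype.sum_prod_type]
    split_ifs with hi
    · have h2 : ∀ z : P.X, ∑ _w : K, g z = Fintype.card K * g z := fun z => by
        rw [sum_const, card_univ, nsmul_eq_mul]
      rw [Finset.sum_congr rfl fun z _ => h2 z, ← mul_sum]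
      congr 1
      exact Finset.sum_coe_sort P.X g
    · show ∑ _z : P.X, ∑ w : K, h w = _
      rw [sum_const, card_univ, nsmul_eq_mul, Fintype.card_coe]
  rw [Fintype.sum_prod_type, Finset.sum_congr rfl fun i _ => h1 i]
  rw [Fin.sum_univ_eq_sum_range (fun i => if i = 0 then Fintype.card K * ∑ z ∈ P.X, g z
      else #P.X * ∑ w : K, h w) P.m]
  obtain ⟨m, hm'⟩ := Nat.exists_eq_succ_of_ne_zero hm.ne'
  rw [hm', sum_range_succ']
  simp only [if_true, Nat.succ_ne_zero, if_false, sum_const, card_range, nsmul_eq_mul]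
  push_cast
  ring

open Classical in
/-- the expected growth of the set of treated sums -/
theorem sum_card_step (P : Par K L) (hm : 0 < P.m) (hHX : P.H ⊆ P.X)
    (hdisj : ∀ z ∈ P.X, ∀ z' ∈ P.X, z ≠ z' → Disjoint (P.blk z) (P.blk z')) (s : Par.St K)
    (hinv : ∀ z ∈ P.H \ s.2, Disjoint (P.blk z) s.1) (σ : K ≃ L) :
    ∑ ω : P.Om, (#(P.step ω s σ).2 : ℝ) ≤ Fintype.card P.Om * #s.2 +
      Fintype.card K * (2 * #P.H) +
        ((P.m : ℝ) - 1) * (#P.X * #{w : K | hit P.ask P.T P.W s.1 σ w}) := by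
  have h1 : ∀ ω : P.Om, (#(P.step ω s σ).2 : ℝ) ≤ #s.2 +
      (if (ω.1 : ℕ) = 0 then (if (ω.2.1 : K) ∈ P.H then 2 else 0) else
        (if hit P.ask P.T P.W s.1 σ ω.2.2 then 1 else 0)) := by
    intro ω
    unfold Par.step
    by_cases h1 : (ω.1 : ℕ) = 0
    · rw [if_pos h1, if_pos h1]
      by_cases h2 : (ω.2.1 : K) ∈ P.H \ s.2
      · rw [if_pos h2, if_pos (mem_sdiff.1 h2).1]
        exact card_sp_z P hHX hdisj s.2 σ (mem_sdiff.1 h2).1
      · rw [if_neg h2]
        have : (0 : ℝ) ≤ if (ω.2.1 : K) ∈ P.H then 2 else 0 := by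
          split_ifs <;> norm_num
        linarith
    · rw [if_neg h1, if_neg h1]
      exact card_sp_w P hHX hdisj hinv σ ω.2.2
  refine (sum_le_sum fun ω _ => h1 ω).trans ?_
  have h2 := sum_om P hm (fun z => if z ∈ P.H then (2 : ℝ) else 0)
    (fun w => if hit P.ask P.T P.W s.1 σ w then (1 : ℝ) else 0)
  rw [sum_add_distrib, sum_const, card_univ, nsmul_eq_mul, h2]
  have h3 : ∑ z ∈ P.X, (if z ∈ P.H then (2 : ℝ) else 0) = 2 * #P.H := by
    rw [← sum_filter, sum_const, nsmul_eq_mul, filter_mem_eq_inter, inter_eq_right.2 hHX]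
    ring
  have h4 : ∑ w : K, (if hit P.ask P.T P.W s.1 σ w then (1 : ℝ) else 0) =
      #{w : K | hit P.ask P.T P.W s.1 σ w} := by
    rw [← sum_filter, sum_const, nsmul_eq_mul, mul_one]
  rw [h3, h4]
  linarith

open Classical in
theorem EL_ge (hKL : Fintype.card K = Fintype.card L) (P : Par K L) (hfr : Fresh P.ask)
    (hm : 0 < P.m)
    (hX : P.X.Nonempty) (hHX : P.H ⊆ P.X) (hQ : ∀ f ∈ P.Q, f.1 ≠ 0)
    (hdisj : ∀ z ∈ P.X, ∀ z' ∈ P.X, z ≠ z' → Disjoint (P.blk z) (P.blk z'))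
    (hκ : 0 < P.κ) (hκ1 : P.κ < 1) (hθ : 0 < P.θ) (ta : ℝ) (hta : 16 * P.T * ta ≤ P.κ * P.θ)
    (hm2 : 2 * Real.log (1 / P.κ) ≤ (P.m - 1) * P.κ)
    (C : ℝ) (hC0 : 0 ≤ C) (hC : ∀ f f' : K × K, f ≠ f' → f.1 ≠ 0 → f'.1 ≠ 0 →
      (#{q ∈ P.X ×ˢ P.X | fv f q.1 = fv f' q.2} : ℝ) ≤ C)
    (k : ℕ) (hB : 2 * (P.T * (P.T + k * P.T + #P.W)) ≤ Fintype.card K)
    (hB2 : 2 * (P.T * (#P.H * #P.Q)) ≤ Fintype.card K) (hB3 : 2 * (k * P.T + P.T) ≤ Fintype.card K)
    (hG : 1 ≤ P.G) (hGk : Real.log (1 / P.κ) / 2 * (k / (P.m * #P.X)) ≤ Real.log P.G)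
    (σ : K ≃ L) (hσ : GoodL P ta σ) (E0 : ℝ)
    (hE0 : 2 * (P.T * (P.T + 1)) + 1 +
      2 * Real.sqrt ((k * P.T : ℝ) * (P.θ * P.T * #P.X + C * P.T ^ 2)) ≤ E0) :
    k / P.m * (Real.log (1 / P.κ) / 2 *
        ((#{z ∈ P.H | acc P.ask P.dec P.T (P.W \ P.blk z) σ z} -
          (4 * P.κ * #P.H + E0) / Real.sqrt P.κ) / #P.X)
        - Real.log 2 * (#P.H / #P.X)) -
      Real.log (1 / P.κ) / 2 * (k / P.m) ^ 2 * #P.H / (#P.X : ℝ) ^ 2 - k * P.dl ≤
      P.proc.EL k (∅, ∅) σ := by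
  have hK : (0 : ℝ) < Fintype.card K := by exact_mod_cast Fintype.card_pos
  have hXc : (0 : ℝ) < #P.X := by exact_mod_cast card_pos.2 hX
  have hm' : (0 : ℝ) < P.m := by exact_mod_cast hm
  have hlam : 0 ≤ Real.log (1 / P.κ) / 2 := by
    have : 0 ≤ Real.log (1 / P.κ) := Real.log_nonneg (by rw [le_div_iff₀ hκ]; linarith)
    linarith
  obtain ⟨lam, hlamd⟩ : ∃ lam, lam = Real.log (1 / P.κ) / 2 := ⟨_, rfl⟩
  obtain ⟨E, hEd⟩ : ∃ E, E = 4 * P.κ * #P.H + E0 := ⟨_, rfl⟩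
  obtain ⟨a, had⟩ : ∃ a : ℝ, a = #{z ∈ P.H | acc P.ask P.dec P.T (P.W \ P.blk z) σ z} :=
    ⟨_, rfl⟩
  obtain ⟨A, hAd⟩ : ∃ A : ℝ, A = lam * ((a - E / Real.sqrt P.κ) / #P.X) -
    Real.log 2 * (#P.H / #P.X) := ⟨_, rfl⟩
  rw [← hlamd] at hlam hGk
  have hlG : 0 ≤ Real.log P.G := Real.log_nonneg hG
  have hm1 : (0 : ℝ) ≤ P.m - 1 := by
    have : (1 : ℝ) ≤ P.m := by exact_mod_cast hm
    linarith
  have hH0 : (0 : ℝ) ≤ #P.H := Nat.cast_nonneg _
  have hE00 : 0 ≤ E0 := le_trans (by positivity) hE0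
  have hE1 : 0 ≤ E := by rw [hEd]; positivity
  -- one step from a state with the invariant
  have hone : ∀ (s : Par.St K), s.2 ⊆ P.H → (∀ z ∈ P.H \ s.2, Disjoint (P.blk z) s.1) →
      #s.1 ≤ k * P.T →
      1 / P.m * (A - lam * #s.2 / #P.X) +
        (P.m - 1) / P.m * (#{w : K | hit P.ask P.T P.W s.1 σ w} / Fintype.card K) *
          Real.log P.G - P.dl ≤
        (∑ ω : P.Om, Real.log (P.fac ω s σ)) / Fintype.card P.Om := by
    rintro ⟨R, D⟩ h1 h2 h3
    simp only at h1 h2 h3 ⊢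
    have h4 : P.b R σ < P.κ → ∑ z ∈ P.H \ D, P.al R σ z ≤ E := by
      intro hb
      have h5 := sum_al_le hKL P hfr R D σ hQ hHX hdisj h2 (by
        refine le_trans ?_ hB
        gcongr) hB2
      have h6 := light_le P R σ C hC0 hC hθ.le
      have h7 : Real.sqrt (#R * (P.θ * P.T * #P.X + C * P.T ^ 2)) ≤
          Real.sqrt ((k * P.T : ℝ) * (P.θ * P.T * #P.X + C * P.T ^ 2)) := by
        apply Real.sqrt_le_sqrt
        apply mul_le_mul_of_nonneg_right
        · exact_mod_cast h3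
        · positivity
      have h8 : P.b R σ * #P.H ≤ P.κ * #P.H := mul_le_mul_of_nonneg_right hb.le hH0
      rw [hEd]
      push_cast at h5 hE0 ⊢
      linarith
    have h5 := one_step P hm hX hHX hκ hκ1 hθ ta hta hm2 σ hσ R D h1 E hE1 h4 hG (by omega)
    refine le_trans (le_of_eq ?_) h5
    rw [hAd, had, hlamd]
    ring
  -- induction
  have main : ∀ (j : ℕ), j ≤ k → ∀ (s : Par.St K), Inv P (k * P.T) j s →
      j * A / P.m - lam / (P.m * #P.X) *
        (j * #s.2 + 2 * #P.H / (P.m * #P.X) * (j * (j - 1) / 2)) - j * P.dl ≤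
        P.proc.EL j s σ := by
    intro j
    induction j with
    | zero =>
      intro _ s _
      simp [Proc.EL]
    | succ j ih =>
      intro hjk s hs
      have hO : (0 : ℝ) < Fintype.card P.Om := by rw [card_Om]; positivity
      have e : P.proc.EL (j + 1) s σ =
          (∑ ω : P.Om, Real.log (P.fac ω s σ)) / Fintype.card P.Om +
            (∑ ω : P.Om, P.proc.EL j (P.step ω s σ) σ) / Fintype.card P.Om := by
        rw [← add_div, ← sum_add_distrib]
        rfl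
      have h1 := hone s hs.sub hs.dis (by have := hs.card; omega)
      obtain ⟨nh, hnh⟩ : ∃ nh : ℝ, nh = #{w : K | hit P.ask P.T P.W s.1 σ w} := ⟨_, rfl⟩
      rw [← hnh] at h1
      have hnh0 : 0 ≤ nh := by rw [hnh]; exact Nat.cast_nonneg _
      have h2 : (∑ ω : P.Om, (j * A / P.m - lam / (P.m * #P.X) *
          (j * #(P.step ω s σ).2 + 2 * #P.H / (P.m * #P.X) * (j * (j - 1) / 2)) - j * P.dl)) ≤
            ∑ ω : P.Om, P.proc.EL j (P.step ω s σ) σ :=
        sum_le_sum fun ω _ => ih (by omega) _ (inv_step P hs ω σ)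
      have h3 := sum_card_step P hm hHX hdisj s hs.dis σ
      rw [← hnh] at h3
      have h4 : (∑ ω : P.Om, (j * A / P.m - lam / (P.m * #P.X) *
          (j * #(P.step ω s σ).2 + 2 * #P.H / (P.m * #P.X) * (j * (j - 1) / 2)) - j * P.dl)) =
            Fintype.card P.Om * (j * A / P.m - lam / (P.m * #P.X) *
              (2 * #P.H / (P.m * #P.X) * (j * (j - 1) / 2)) - j * P.dl) -
              lam / (P.m * #P.X) * (j * ∑ ω : P.Om, (#(P.step ω s σ).2 : ℝ)) := by
        have : ∀ ω : P.Om, (j * A / P.m - lam / (P.m * #P.X) *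
          (j * #(P.step ω s σ).2 + 2 * #P.H / (P.m * #P.X) * (j * (j - 1) / 2)) - j * P.dl) =
            (j * A / P.m - lam / (P.m * #P.X) * (2 * #P.H / (P.m * #P.X) * (j * (j - 1) / 2)) -
              j * P.dl) -
              lam / (P.m * #P.X) * (j * (#(P.step ω s σ).2 : ℝ)) := fun ω => by ring
        rw [sum_congr rfl fun ω _ => this ω, sum_sub_distrib, sum_const, card_univ,
          nsmul_eq_mul, ← mul_sum, ← mul_sum]
      have h5 : lam / (P.m * #P.X) * (j * ∑ ω : P.Om, (#(P.step ω s σ).2 : ℝ)) ≤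
          lam / (P.m * #P.X) * (j * (Fintype.card P.Om * #s.2 + Fintype.card K * (2 * #P.H) +
            ((P.m : ℝ) - 1) * (#P.X * nh))) := by
        gcongr
      have h6 : (j * A / P.m - lam / (P.m * #P.X) *
              (2 * #P.H / (P.m * #P.X) * (j * (j - 1) / 2)) - j * P.dl) -
              lam / (P.m * #P.X) * (j * (#s.2 + 2 * #P.H / (P.m * #P.X))) -
              (P.m - 1) / P.m * (nh / Fintype.card K) * (lam * (j / (P.m * #P.X))) ≤
            (∑ ω : P.Om, P.proc.EL j (P.step ω s σ) σ) / Fintype.card P.Om := by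
        rw [le_div_iff₀ hO]
        refine le_trans (le_of_eq ?_) (h4 ▸ h2 |>.trans' (sub_le_sub_left h5 _))
        rw [card_Om]
        field_simp
        ring
      have h7 : (P.m - 1) / P.m * (nh / Fintype.card K) * (lam * (j / (P.m * #P.X))) ≤
          (P.m - 1) / P.m * (nh / Fintype.card K) * Real.log P.G := by
        refine mul_le_mul_of_nonneg_left (le_trans ?_ hGk) (by positivity)
        have h8 : (j : ℝ) ≤ k := by exact_mod_cast (by omega : j ≤ k)
        gcongr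
      rw [e]
      refine le_trans ?_ (add_le_add h1 h6)
      have h8 : ((j + 1 : ℕ) : ℝ) * A / P.m - lam / (P.m * #P.X) *
          (((j + 1 : ℕ) : ℝ) * #s.2 +
            2 * #P.H / (P.m * #P.X) * (((j + 1 : ℕ) : ℝ) * (((j + 1 : ℕ) : ℝ) - 1) / 2)) -
          ((j + 1 : ℕ) : ℝ) * P.dl =
          1 / P.m * (A - lam * #s.2 / #P.X) - P.dl +
          ((j * A / P.m - lam / (P.m * #P.X) *
              (2 * #P.H / (P.m * #P.X) * (j * (j - 1) / 2)) - j * P.dl) -
              lam / (P.m * #P.X) * (j * (#s.2 + 2 * #P.H / (P.m * #P.X)))) := by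
        push_cast
        field_simp
        ring
      rw [h8]
      linarith
  have hfin := main k le_rfl (∅, ∅) ⟨empty_subset _, fun z _ => disjoint_empty_right _, by simp⟩
  refine le_trans ?_ hfin
  rw [← hlamd, ← had, ← hEd]
  have e1 : k / P.m * (lam * ((a - E / Real.sqrt P.κ) / #P.X) - Real.log 2 * (#P.H / #P.X)) =
      k * A / P.m := by
    rw [hAd]; ring
  rw [e1]
  have e2 : lam / (P.m * #P.X) * (k * #(∅ : Finset K) +
      2 * #P.H / (P.m * #P.X) * (k * (k - 1) / 2)) =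
      lam * #P.H / (P.m * #P.X) ^ 2 * (k * (k - 1)) := by
    rw [card_empty]
    push_cast
    field_simp
    ring
  have e3 : lam * (k / P.m) ^ 2 * #P.H / (#P.X : ℝ) ^ 2 =
      lam * #P.H / (P.m * #P.X) ^ 2 * (k * k) := by
    field_simp
  have h7 : lam * #P.H / (P.m * #P.X) ^ 2 * ((k : ℝ) * (k - 1)) ≤
      lam * #P.H / (P.m * #P.X) ^ 2 * (k * k) := by
    apply mul_le_mul_of_nonneg_left _ (by positivity)
    have : (0 : ℝ) ≤ k := Nat.cast_nonneg _
    nlinarith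
  show k * A / P.m - lam * (k / P.m) ^ 2 * #P.H / (#P.X : ℝ) ^ 2 - k * P.dl ≤ k * A / P.m -
    lam / (P.m * #P.X) * (k * #(∅ : Finset K) + 2 * #P.H / (P.m * #P.X) * (k * (k - 1) / 2)) -
    k * P.dl
  rw [e2, e3]
  linarith

end Pool.Agent.GGF
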