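import Mathlib
import Pool.Agent.GGF.Defs

/-! Random hidden sets. -/

namespace Pool.Agent.GGF

open Finset

variable {K L : Type} [Field K] [Fintype K] [Fintype L] [DecidableEq K] [DecidableEq L]

/-- the parameters with the hidden sums given by the colouring `χ` -/
def Par.hid {D0 : ℕ} (P : Par K L) (χ : K → Fin D0) : Par K L :=
  { P with H := P.X.filter fun z => (χ z : ℕ) = 0 }

omit [Field K] in
/-- the number of colourings which vanish on `A` -/
theorem card_zero_on (D0 : ℕ) (hD0 : 0 < D0) (A : Finset K) :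
    #{χ : K → Fin D0 | ∀ y ∈ A, (χ y : ℕ) = 0} * D0 ^ #A = Fintype.card (K → Fin D0) := by
  have h1 : (univ.filter fun χ : K → Fin D0 => ∀ y ∈ A, (χ y : ℕ) = 0) =
      Fintype.piFinset (fun y => if y ∈ A then {(⟨0, hD0⟩ : Fin D0)} else univ) := by
    ext χ
    simp only [mem_filter, mem_univ, true_and, Fintype.mem_piFinset]
    constructor
    · intro h y
      by_cases hy : y ∈ A
      · rw [if_pos hy, mem_singleton]
        exact Fin.ext (h y hy)
      · rw [if_neg hy]; exact mem_univ _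
    · intro h y hy
      have := h y
      rw [if_pos hy, mem_singleton] at this
      rw [this]
  have h2 : D0 ^ #A = ∏ y : K, if y ∈ A then D0 else 1 := by
    rw [prod_ite]
    simp
  rw [h1, Fintype.card_piFinset, h2, ← prod_mul_distrib, Fintype.card_fun, Fintype.card_fin]
  rw [show D0 ^ Fintype.card K = ∏ _y : K, D0 by simp]
  apply prod_congr rfl
  intro y _
  by_cases hy : y ∈ A
  · simp [hy]
  · simp [hy]

omit [Field K] in
theorem card_zero_one (D0 : ℕ) (hD0 : 0 < D0) (z : K) :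
    (#{χ : K → Fin D0 | (χ z : ℕ) = 0} : ℝ) = Fintype.card (K → Fin D0) / D0 := by
  have h := card_zero_on D0 hD0 ({z} : Finset K)
  have hD : (D0 : ℝ) ≠ 0 := by exact_mod_cast hD0.ne'
  rw [eq_div_iff hD]
  have h' : (univ.filter fun χ : K → Fin D0 => ∀ y ∈ ({z} : Finset K), (χ y : ℕ) = 0) =
      univ.filter fun χ : K → Fin D0 => (χ z : ℕ) = 0 := by
    ext χ; simp
  rw [h', card_singleton, pow_one] at h
  exact_mod_cast h

omit [Field K] in
theorem card_zero_two (D0 : ℕ) (hD0 : 0 < D0) (z z' : K) (hz : z ≠ z') :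
    (#{χ : K → Fin D0 | (χ z : ℕ) = 0 ∧ (χ z' : ℕ) = 0} : ℝ) =
      Fintype.card (K → Fin D0) / (D0 : ℝ) ^ 2 := by
  have h := card_zero_on D0 hD0 ({z, z'} : Finset K)
  have hD : (D0 : ℝ) ^ 2 ≠ 0 := by
    have : (D0 : ℝ) ≠ 0 := by exact_mod_cast hD0.ne'
    positivity
  rw [eq_div_iff hD]
  have h' : (univ.filter fun χ : K → Fin D0 => ∀ y ∈ ({z, z'} : Finset K), (χ y : ℕ) = 0) =
      univ.filter fun χ : K → Fin D0 => (χ z : ℕ) = 0 ∧ (χ z' : ℕ) = 0 := by
    ext χ; simp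
  rw [h', card_pair hz] at h
  exact_mod_cast h

theorem avg_card (P : Par K L) (D0 : ℕ) (hD0 : 0 < D0) :
    (∑ χ : K → Fin D0, (#(P.hid χ).H : ℝ)) / Fintype.card (K → Fin D0) = #P.X / D0 := by
  have hc : (0 : ℝ) < Fintype.card (K → Fin D0) := by
    have : Nonempty (Fin D0) := ⟨⟨0, hD0⟩⟩
    exact_mod_cast Fintype.card_pos
  rw [div_eq_iff hc.ne']
  have h1 : ∀ χ : K → Fin D0, (#(P.hid χ).H : ℝ) = ∑ z ∈ P.X, if (χ z : ℕ) = 0 then 1 else 0 := by
    intro χ
    simp only [Par.hid]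
    rw [card_filter]
    push_cast
    rfl
  rw [sum_congr rfl fun χ _ => h1 χ, sum_comm]
  have h2 : ∀ z ∈ P.X, (∑ χ : K → Fin D0, if (χ z : ℕ) = 0 then (1 : ℝ) else 0) =
      Fintype.card (K → Fin D0) / D0 := by
    intro z _
    rw [← card_zero_one D0 hD0 z, card_filter]
    push_cast
    rfl
  rw [sum_congr rfl h2, sum_const, nsmul_eq_mul]
  ring

open Classical in
theorem avg_acc (P : Par K L) (hQ : ∀ f ∈ P.Q, f.1 ≠ 0)
    (hdisj : ∀ z ∈ P.X, ∀ z' ∈ P.X, z ≠ z' → Disjoint (P.blk z) (P.blk z'))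
    (σ : K ≃ L) (D0 : ℕ) (hD0 : 0 < D0) :
    (#{z ∈ P.X | P.dec (view P.ask σ z P.T)} : ℝ) * (1 / D0 - P.T / D0 ^ 2) ≤
      (∑ χ : K → Fin D0, (#{z ∈ (P.hid χ).H |
        acc P.ask P.dec P.T ((P.hid χ).W \ (P.hid χ).blk z) σ z} : ℝ)) /
        Fintype.card (K → Fin D0) := by
  have hc : (0 : ℝ) < Fintype.card (K → Fin D0) := by
    have : Nonempty (Fin D0) := ⟨⟨0, hD0⟩⟩
    exact_mod_cast Fintype.card_pos
  have hD : (0 : ℝ) < D0 := by exact_mod_cast hD0
  rw [le_div_iff₀ hc]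
  set A : Finset K := P.X.filter fun z => P.dec (view P.ask σ z P.T) with hA
  -- the colourings for which `z` counts
  have h1 : ∀ χ : K → Fin D0, (∑ z ∈ A, if ((χ z : ℕ) = 0 ∧
      clean P.ask ((P.hid χ).W \ P.blk z) σ z P.T) then (1 : ℝ) else 0) ≤
      (#{z ∈ (P.hid χ).H |
        acc P.ask P.dec P.T ((P.hid χ).W \ (P.hid χ).blk z) σ z} : ℝ) := by
    intro χ
    rw [← sum_filter, sum_const, nsmul_eq_mul, mul_one, Nat.cast_le]
    apply card_le_card
    intro z hz
    obtain ⟨hzA, h0, hcl⟩ := mem_filter.1 hz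
    obtain ⟨hzX, hdec⟩ := mem_filter.1 hzA
    refine mem_filter.2 ⟨?_, hcl, hdec⟩
    exact mem_filter.2 ⟨hzX, h0⟩
  refine le_trans ?_ (sum_le_sum fun χ _ => h1 χ)
  rw [sum_comm]
  have h2 : ∀ z ∈ A, (Fintype.card (K → Fin D0) : ℝ) * (1 / D0 - P.T / D0 ^ 2) ≤
      ∑ χ : K → Fin D0, if ((χ z : ℕ) = 0 ∧
        clean P.ask ((P.hid χ).W \ P.blk z) σ z P.T) then (1 : ℝ) else 0 := by
    intro z hz
    have hzX : z ∈ P.X := (mem_filter.1 hz).1
    -- pointwise: indicator of `χ z = 0` minus the sum over the reads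
    set B : ℕ → Finset (K → Fin D0) := fun i =>
      univ.filter fun χ => (χ z : ℕ) = 0 ∧ ps P.ask σ z i ∈ (P.hid χ).W \ P.blk z with hB
    have hBcard : ∀ i, (#(B i) : ℝ) ≤ Fintype.card (K → Fin D0) / (D0 : ℝ) ^ 2 := by
      intro i
      by_cases hex : ∃ z' ∈ P.X, z' ≠ z ∧ ps P.ask σ z i ∈ P.blk z'
      · obtain ⟨z', hz'X, hne, hmem⟩ := hex
        rw [← card_zero_two D0 hD0 z z' hne.symm, Nat.cast_le]
        apply card_le_card
        intro χ hχ
        obtain ⟨_, h0, hW⟩ := mem_filter.1 hχ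
        refine mem_filter.2 ⟨mem_univ _, h0, ?_⟩
        obtain ⟨hW1, hW2⟩ := mem_sdiff.1 hW
        obtain ⟨z'', hz'', hm⟩ := mem_biUnion.1 hW1
        obtain ⟨hz''X, h0''⟩ := mem_filter.1 hz''
        have : z'' = z' := by
          by_contra hne'
          exact disjoint_left.1 (hdisj z'' hz''X z' hz'X hne') hm hmem
        rw [← this]; exact h0''
      · have : B i = ∅ := by
          rw [eq_empty_iff_forall_notMem]
          intro χ hχ
          obtain ⟨_, h0, hW⟩ := mem_filter.1 hχ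
          obtain ⟨hW1, hW2⟩ := mem_sdiff.1 hW
          obtain ⟨z'', hz'', hm⟩ := mem_biUnion.1 hW1
          obtain ⟨hz''X, h0''⟩ := mem_filter.1 hz''
          apply hex
          refine ⟨z'', hz''X, ?_, hm⟩
          rintro rfl
          exact hW2 hm
        rw [this]; simp only [card_empty, Nat.cast_zero]; positivity
    have hpt : ∀ χ : K → Fin D0, (if (χ z : ℕ) = 0 then (1 : ℝ) else 0) -
        ∑ i ∈ range P.T, (if χ ∈ B i then (1 : ℝ) else 0) ≤
        if ((χ z : ℕ) = 0 ∧ clean P.ask ((P.hid χ).W \ P.blk z) σ z P.T) then (1 : ℝ) else 0 := by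
      intro χ
      have hs0 : 0 ≤ ∑ i ∈ range P.T, (if χ ∈ B i then (1 : ℝ) else 0) :=
        sum_nonneg fun i _ => by split_ifs <;> norm_num
      by_cases h0 : (χ z : ℕ) = 0
      · by_cases hcl : clean P.ask ((P.hid χ).W \ P.blk z) σ z P.T
        · rw [if_pos h0, if_pos ⟨h0, hcl⟩]; linarith
        · rw [if_pos h0, if_neg (fun h => hcl h.2)]
          unfold clean at hcl
          push Not at hcl
          obtain ⟨i, hi, hmem⟩ := hcl
          have : (1 : ℝ) ≤ ∑ i ∈ range P.T, (if χ ∈ B i then (1 : ℝ) else 0) := by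
            have hin : χ ∈ B i := mem_filter.2 ⟨mem_univ _, h0, hmem⟩
            calc (1 : ℝ) = if χ ∈ B i then (1 : ℝ) else 0 := by rw [if_pos hin]
              _ ≤ _ := single_le_sum (f := fun i => if χ ∈ B i then (1 : ℝ) else 0)
                  (fun j _ => by split_ifs <;> norm_num) (mem_range.2 hi)
          linarith
      · rw [if_neg h0, if_neg (fun h => h0 h.1)]; linarith
    refine le_trans ?_ (sum_le_sum fun χ _ => hpt χ)
    rw [sum_sub_distrib]
    have hone : (∑ χ : K → Fin D0, if (χ z : ℕ) = 0 then (1 : ℝ) else 0) =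
        Fintype.card (K → Fin D0) / D0 := by
      rw [← card_zero_one D0 hD0 z, card_filter]
      push_cast
      rfl
    have htwo : ∑ χ : K → Fin D0, ∑ i ∈ range P.T, (if χ ∈ B i then (1 : ℝ) else 0) ≤
        P.T * (Fintype.card (K → Fin D0) / (D0 : ℝ) ^ 2) := by
      rw [sum_comm]
      calc ∑ i ∈ range P.T, ∑ χ : K → Fin D0, (if χ ∈ B i then (1 : ℝ) else 0)
          = ∑ i ∈ range P.T, (#(B i) : ℝ) := by
            apply sum_congr rfl; intro i _
            rw [← sum_filter, sum_const, nsmul_eq_mul, mul_one]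
            congr 2
            ext χ; simp
        _ ≤ ∑ i ∈ range P.T, Fintype.card (K → Fin D0) / (D0 : ℝ) ^ 2 :=
            sum_le_sum fun i _ => hBcard i
        _ = _ := by rw [sum_const, card_range, nsmul_eq_mul]
    rw [hone]
    have : (Fintype.card (K → Fin D0) : ℝ) * (1 / D0 - P.T / D0 ^ 2) =
        Fintype.card (K → Fin D0) / D0 - P.T * (Fintype.card (K → Fin D0) / (D0 : ℝ) ^ 2) := by
      ring
    rw [this]
    linarith
  calc (#A : ℝ) * (1 / D0 - P.T / D0 ^ 2) * Fintype.card (K → Fin D0)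
      = ∑ z ∈ A, (Fintype.card (K → Fin D0) : ℝ) * (1 / D0 - P.T / D0 ^ 2) := by
        rw [sum_const, nsmul_eq_mul]; ring
    _ ≤ _ := sum_le_sum h2

end Pool.Agent.GGF
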