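import Mathlib
import Pool.Agent.GGF.Defs

/-!
# 3SUM-Indexing in the generic group model: the model

The group elements are the elements of `K` (the integers modulo a prime), known only by their
labels `σ : K → L` (an injective map).  The memory of a structure is an advice value `α < H`, an
arbitrary function of `σ` and of the arrays, read for free.  The query `z` starts with the label of
`z`; then it makes one operation after the other.  An operation takes two labels `x`, `y` and three
constants, and its answer is the label of `c₀ + c₁ u + c₂ v`, where `u`, `v` are the numbers with
the labels `x`, `y`.  It may depend on the advice and on all the answers so far; the labels `x`, `y`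
are arbitrary (answers obtained before, or any other labels).
-/

namespace Pool.Agent.GGF

/-- an operation -/
structure Op (K L : Type*) where
  c₀ : K
  c₁ : K
  c₂ : K
  x : L
  y : L

/-- the answer to an operation: the label of `c₀ + c₁ u + c₂ v`, where `u` and `v` are the numbers
with the labels `x` and `y`; `none` if `x` or `y` is not a label -/
noncomputable def Op.eval {K L : Type*} [Mul K] [Add K] (r : Op K L) (σ : K → L) : Option L :=
  (Function.partialInv σ r.x).bind fun u => (Function.partialInv σ r.y).map fun v =>
    σ (r.c₀ + r.c₁ * u + r.c₂ * v)

/-- a structure with `H` advice values: the next operation and the decision, as functions of the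
advice and of the list of the answers so far (the latest first, the label of the query is the last
entry) -/
structure GScheme (K L : Type*) (H : ℕ) where
  op : Fin H → List (Option L) → Op K L
  dec : Fin H → List (Option L) → Prop

/-- the label of `z` and the answers to the first `k` operations, the latest first -/
noncomputable def run {K L : Type*} [Mul K] [Add K] (op : List (Option L) → Op K L) (σ : K → L)
    (z : K) : ℕ → List (Option L)
  | 0 => [some (σ z)]
  | k + 1 => (op (run op σ z k)).eval σ :: run op σ z k

variable {K L : Type*} {H n : ℕ}

/-- `z` is the sum of an entry of the first array and of an entry of the second one -/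
def IsSum [Add K] (a b : Fin n → K) (z : K) : Prop := ∃ i j, a i + b j = z

/-- with the labelling `σ` and the advice `α` the structure accepts `z` after `T` operations -/
def Accepts [Mul K] [Add K] (P : GScheme K L H) (T : ℕ) (σ : K → L) (α : Fin H) (z : K) : Prop :=
  P.dec α (run (P.op α) σ z T)

/-- some advice makes the structure reject at most `E` sums and accept at most `F` other
elements -/
def Works [Mul K] [Add K] (P : GScheme K L H) (T : ℕ) (a b : Fin n → K) (E F : ℕ) (σ : K → L) :
    Prop :=
  ∃ α, Set.encard {z | IsSum a b z ∧ ¬ Accepts P T σ α z} ≤ E ∧
    Set.encard {z | ¬ IsSum a b z ∧ Accepts P T σ α z} ≤ F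

end Pool.Agent.GGF
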