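import Mathlib
import Pool.Agent.GGF.Mod

/-!
# 3SUM-Indexing, generic model: the lower bound for the two kinds of requests, statement
-/

namespace Pool.Agent.GGF

/-- the lower bound for bijections and for the two kinds of requests of Defs.lean -/
def LowerT : Prop := ∀ ε η : ℝ, 0 < ε → 0 < η → ∃ c : ℝ, 0 < c ∧ ∃ C n₀ : ℕ, ∀ n ≥ n₀,
    ∀ p : ℕ, p.Prime → n ^ C ≤ p → p ≤ 2 ^ n →
    ∃ Bad : Finset ((Fin n → ZMod p) × (Fin n → ZMod p)), n * Bad.card ≤ p ^ (2 * n) ∧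
      ∀ a b, (a, b) ∉ Bad → ∀ (L : Type) [Finite L], Nat.card L = p →
        ∀ (H T E F : ℕ) (ask : Fin H → List (L ⊕ ZMod p) → (ZMod p × ZMod p) ⊕ L)
          (dec : Fin H → List (L ⊕ ZMod p) → Prop), (∀ α, Fresh (ask α)) → 1 ≤ T → T ^ 100 ≤ n →
        (E : ℝ) ≤ (1 - η) * (n : ℝ) ^ 2 → (F : ℝ) ≤ p / (n : ℝ) ^ ε →
        (Nat.card {σ : ZMod p ≃ L // ∃ α,
          Set.encard {z | IsSum a b z ∧ ¬ dec α (view (ask α) σ z T)} ≤ E ∧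
          Set.encard {z | ¬ IsSum a b z ∧ dec α (view (ask α) σ z T)} ≤ F} : ℝ) *
          (n : ℝ) ^ (c * (n : ℝ) ^ 2 / T) ≤ H * (p.factorial : ℝ)

end Pool.Agent.GGF
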