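import Mathlib
import Pool.Agent.GGF.Mod

/-!
# 3SUM-Indexing, generic model: an operation is simulated by three reads
-/

namespace Pool.Agent.GGF

open Finset

theorem num_equiv {K L : Type*} (σ : K ≃ L) (l : L) :
    Function.partialInv (σ : K → L) l = some (σ.symm l) := by
  have h : ∃ x, σ x = l := ⟨σ.symm l, σ.apply_symm_apply l⟩
  unfold Function.partialInv
  rw [dif_pos h]
  congr 1
  rw [Equiv.eq_symm_apply]
  exact h.choose_spec

theorem eval_equiv {K L : Type*} [Mul K] [Add K] (σ : K ≃ L) (o : Op K L) :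
    o.eval (σ : K → L) = some (σ (o.c₀ + o.c₁ * σ.symm o.x + o.c₂ * σ.symm o.y)) := by
  unfold Op.eval
  rw [num_equiv, num_equiv]
  rfl

section red

variable {K L : Type} [Field K] [DecidableEq L]

/-- the known labels and the forms of their numbers -/
abbrev Tab (K L : Type) := List (L × (K × K))

/-- the form of the number with the label `x` -/
def look (τ : Tab K L) (x : L) : Option (K × K) := (τ.find? fun p => p.1 = x).map Prod.snd

/-- the table after the answer `e` to the request for the label `x` -/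
def put (τ : Tab K L) (x : L) (e : L ⊕ K) : Tab K L :=
  match e with
  | Sum.inr u => (x, (0, u)) :: τ
  | Sum.inl _ => τ

/-- the form of the result of the operation `o` -/
def cf (o : Op K L) (τ : Tab K L) : K × K :=
  (o.c₁ * ((look τ o.x).getD (0, 0)).1 + o.c₂ * ((look τ o.y).getD (0, 0)).1,
    o.c₀ + o.c₁ * ((look τ o.x).getD (0, 0)).2 + o.c₂ * ((look τ o.y).getD (0, 0)).2)

/-- the data of the simulation: stage, answers to the operations, table -/
abbrev Dat (K L : Type) := ℕ × List (Option L) × Tab K L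

/-- one step of the simulation -/
def upd (op : List (Option L) → Op K L) (d : Dat K L) (e : L ⊕ K) : Dat K L :=
  match d, e with
  | (0, _, _), Sum.inl x => (1, [some x], [(x, (1, 0))])
  | (0, _, _), Sum.inr _ => (1, [], [])
  | (1, A, τ), e => (2, A, put τ (op A).x e)
  | (2, A, τ), e => (3, A, put τ (op A).y e)
  | (_, A, τ), Sum.inl x => (1, some x :: A, (x, cf (op A) τ) :: τ)
  | (_, A, τ), Sum.inr _ => (1, A, τ)

/-- the next request -/
def req (op : List (Option L) → Op K L) (d : Dat K L) : (K × K) ⊕ L :=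
  match d with
  | (0, _, _) => Sum.inl (1, 0)
  | (1, A, τ) => if (look τ (op A).x).isSome then Sum.inl (1, 0) else Sum.inr (op A).x
  | (2, A, τ) => if (look τ (op A).y).isSome then Sum.inl (1, 0) else Sum.inr (op A).y
  | (_, A, τ) => Sum.inl (cf (op A) τ)

/-- the data after the answers `l` -/
def dat (op : List (Option L) → Op K L) : List (L ⊕ K) → Dat K L
  | [] => (0, [], [])
  | e :: l => upd op (dat op l) e

open Classical in
/-- the request `r`, unless it asks for a label which has been read -/
noncomputable def guard (r : (K × K) ⊕ L) (l : List (L ⊕ K)) : (K × K) ⊕ L :=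
  match r with
  | Sum.inl f => Sum.inl f
  | Sum.inr x => if Sum.inl x ∈ l then Sum.inl (1, 0) else Sum.inr x

/-- the requests of the simulation -/
noncomputable def sask (op : List (Option L) → Op K L) (l : List (L ⊕ K)) : (K × K) ⊕ L :=
  guard (req op (dat op l)) l

theorem fresh_sask (op : List (Option L) → Op K L) : Fresh (sask op) := by
  intro l x h
  unfold sask guard at h
  split at h
  · exact absurd h (by simp)
  · split_ifs at h with h1
    rw [Sum.inr.injEq] at h
    rwa [h] at h1

/-- the table is right and contains all labels read -/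
structure RInv (σ : K ≃ L) (y : K) (τ : Tab K L) (l : List (L ⊕ K)) : Prop where
  form : ∀ p ∈ τ, σ (fv p.2 y) = p.1
  all : ∀ x, Sum.inl x ∈ l → ∃ p ∈ τ, p.1 = x
  self : ∃ p ∈ τ, p.1 = σ y

omit [Field K] in
theorem look_isSome {τ : Tab K L} {x : L} (h : ∃ p ∈ τ, p.1 = x) : (look τ x).isSome := by
  obtain ⟨p, hp, hx⟩ := h
  rw [look, Option.isSome_map, List.find?_isSome]
  exact ⟨p, hp, by simpa using hx⟩

omit [Field K] in
theorem mem_of_look {τ : Tab K L} {x : L} (h : (look τ x).isSome) : ∃ p ∈ τ, p.1 = x := by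
  rw [look, Option.isSome_map, List.find?_isSome] at h
  obtain ⟨p, hp, hx⟩ := h
  exact ⟨p, hp, by simpa using hx⟩

theorem look_form {σ : K ≃ L} {y : K} {τ : Tab K L} (hτ : ∀ p ∈ τ, σ (fv p.2 y) = p.1) {x : L}
    (h : ∃ p ∈ τ, p.1 = x) : fv ((look τ x).getD (0, 0)) y = σ.symm x := by
  have h1 := look_isSome h
  rw [look, Option.isSome_map, Option.isSome_iff_exists] at h1
  obtain ⟨p, hp⟩ := h1
  have h2 : p ∈ τ := List.mem_of_find?_eq_some hp
  have h3 : p.1 = x := by simpa using List.find?_some hp
  rw [look, hp, Option.map_some, Option.getD_some, Equiv.eq_symm_apply, hτ p h2, h3]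

/-- a request for the label `x` -/
theorem resolve {σ : K ≃ L} {y : K} {τ : Tab K L} {l : List (L ⊕ K)} (hI : RInv σ y τ l) (x : L)
    {r : (K × K) ⊕ L}
    (hr : r = guard (if (look τ x).isSome then Sum.inl (1, 0) else Sum.inr x) l) :
    RInv σ y (put τ x (ans r σ y)) (ans r σ y :: l) ∧
      (∃ p ∈ put τ x (ans r σ y), p.1 = x) ∧ ∀ p ∈ τ, p ∈ put τ x (ans r σ y) := by
  by_cases h : (look τ x).isSome
  · rw [if_pos h] at hr
    have h1 : ans r σ y = Sum.inl (σ y) := by
      rw [hr]
      simp [guard, ans, fv]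
    rw [h1]
    refine ⟨⟨hI.form, ?_, hI.self⟩, mem_of_look h, fun p hp => hp⟩
    intro x' hx'
    rw [List.mem_cons] at hx'
    rcases hx' with h2 | h2
    · rw [Sum.inl.injEq] at h2
      rw [h2]
      exact hI.self
    · exact hI.all x' h2
  · rw [if_neg h] at hr
    have h2 : Sum.inl x ∉ l := fun h3 => h (look_isSome (hI.all x h3))
    have h1 : ans r σ y = Sum.inr (σ.symm x) := by
      rw [hr]
      simp [guard, ans, h2]
    rw [h1]
    have h3 : ∀ p ∈ τ, p ∈ put τ x (Sum.inr (σ.symm x)) := fun p hp => List.mem_cons_of_mem _ hp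
    refine ⟨⟨?_, ?_, ?_⟩, ⟨(x, (0, σ.symm x)), List.mem_cons_self, rfl⟩, h3⟩
    · intro p hp
      rcases List.mem_cons.1 hp with rfl | hp'
      · simp [fv]
      · exact hI.form p hp'
    · intro x' hx'
      rw [List.mem_cons] at hx'
      rcases hx' with h4 | h4
      · exact absurd h4 (by simp)
      · obtain ⟨p, hp, hx⟩ := hI.all x' h4
        exact ⟨p, h3 p hp, hx⟩
    · obtain ⟨p, hp, hx⟩ := hI.self
      exact ⟨p, h3 p hp, hx⟩

/-- the simulation of the first `i` operations -/
theorem sim (op : List (Option L) → Op K L) (σ : K ≃ L) (y : K) (i : ℕ) :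
    ∃ τ : Tab K L, dat op (view (sask op) σ y (3 * i + 1)) = (1, run op (σ : K → L) y i, τ) ∧
      RInv σ y τ (view (sask op) σ y (3 * i + 1)) := by
  induction i with
  | zero =>
    refine ⟨[(σ y, (1, 0))], ?_, ?_⟩
    · simp [view, sask, req, dat, guard, ans, upd, fv, run]
    · have h1 : view (sask op) σ y (3 * 0 + 1) = [Sum.inl (σ y)] := by
        simp [view, sask, req, dat, guard, ans, fv]
      rw [h1]
      refine ⟨?_, ?_, ⟨_, List.mem_singleton_self _, rfl⟩⟩
      · intro p hp
        rw [List.mem_singleton] at hp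
        subst hp
        simp [fv]
      · intro x hx
        rw [List.mem_singleton, Sum.inl.injEq] at hx
        exact ⟨_, List.mem_singleton_self _, hx.symm⟩
  | succ i ih =>
    obtain ⟨τ, h0, hI⟩ := ih
    set v := view (sask op) σ y with hv
    set A := run op (σ : K → L) y i with hA
    -- the first label
    have e1 : v (3 * i + 2) = ans (sask op (v (3 * i + 1))) σ y :: v (3 * i + 1) := rfl
    have r1 : sask op (v (3 * i + 1)) = guard (if (look τ (op A).x).isSome then Sum.inl (1, 0)
        else Sum.inr (op A).x) (v (3 * i + 1)) := by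
      rw [sask, h0]
      rfl
    obtain ⟨I1, m1, s1⟩ := resolve hI (op A).x r1
    set τ1 := put τ (op A).x (ans (sask op (v (3 * i + 1))) σ y) with hτ1
    have h1 : dat op (v (3 * i + 2)) = (2, A, τ1) := by
      rw [e1, dat, h0]
      rfl
    rw [← e1] at I1
    -- the second label
    have e2 : v (3 * i + 3) = ans (sask op (v (3 * i + 2))) σ y :: v (3 * i + 2) := rfl
    have r2 : sask op (v (3 * i + 2)) = guard (if (look τ1 (op A).y).isSome then Sum.inl (1, 0)
        else Sum.inr (op A).y) (v (3 * i + 2)) := by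
      rw [sask, h1]
      rfl
    obtain ⟨I2, m2, s2⟩ := resolve I1 (op A).y r2
    set τ2 := put τ1 (op A).y (ans (sask op (v (3 * i + 2))) σ y) with hτ2
    have h2 : dat op (v (3 * i + 3)) = (3, A, τ2) := by
      rw [e2, dat, h1]
      rfl
    rw [← e2] at I2
    -- the result
    have e3 : v (3 * (i + 1) + 1) = ans (sask op (v (3 * i + 3))) σ y :: v (3 * i + 3) := rfl
    have r3 : sask op (v (3 * i + 3)) = Sum.inl (cf (op A) τ2) := by
      rw [sask, h2]
      rfl
    have f1 := look_form I2.form (x := (op A).x) (by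
      obtain ⟨p, hp, hx⟩ := m1
      exact ⟨p, s2 p hp, hx⟩)
    have f2 := look_form I2.form (x := (op A).y) m2
    have f3 : fv (cf (op A) τ2) y = (op A).c₀ + (op A).c₁ * σ.symm (op A).x +
        (op A).c₂ * σ.symm (op A).y := by
      rw [← f1, ← f2]
      simp only [fv, cf]
      ring
    have h3 : ans (sask op (v (3 * i + 3))) σ y = Sum.inl (σ (fv (cf (op A) τ2) y)) := by
      rw [r3]
      rfl
    have e4 : run op (σ : K → L) y (i + 1) = some (σ (fv (cf (op A) τ2) y)) :: A := by
      rw [run, eval_equiv, f3]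
    refine ⟨(σ (fv (cf (op A) τ2) y), cf (op A) τ2) :: τ2, ?_, ?_⟩
    · rw [e3, dat, h2, h3, e4]
      rfl
    · rw [e3, h3]
      refine ⟨?_, ?_, ?_⟩
      · intro p hp
        rcases List.mem_cons.1 hp with rfl | hp'
        · rfl
        · exact I2.form p hp'
      · intro x hx
        rw [List.mem_cons] at hx
        rcases hx with h4 | h4
        · rw [Sum.inl.injEq] at h4
          exact ⟨_, List.mem_cons_self, h4.symm⟩
        · obtain ⟨p, hp, hx⟩ := I2.all x h4
          exact ⟨p, List.mem_cons_of_mem _ hp, hx⟩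
      · obtain ⟨p, hp, hx⟩ := I2.self
        exact ⟨p, List.mem_cons_of_mem _ hp, hx⟩

/-- `some` labels only: for a bijection all the answers are labels -/
theorem red (op : List (Option L) → Op K L) (dec : List (Option L) → Prop) :
    ∃ (ask : List (L ⊕ K) → (K × K) ⊕ L) (dec' : List (L ⊕ K) → Prop), Fresh ask ∧
      ∀ (σ : K ≃ L) (z : K) (T : ℕ),
        dec (run op σ z T) ↔ dec' (view ask σ z (3 * T + 1)) := by
  refine ⟨sask op, fun l => dec (dat op l).2.1, fresh_sask op, fun σ z T => ?_⟩
  obtain ⟨τ, h, -⟩ := sim op σ z T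
  show _ ↔ dec (dat op (view (sask op) σ z (3 * T + 1))).2.1
  rw [h]

end red

end Pool.Agent.GGF
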