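import Mathlib
import Pool.Agent.GGF.Red
import Pool.Agent.GGF.Fin

/-!
# 3SUM-Indexing, generic model: from reads to operations
-/

namespace Pool.Agent.GGF

open Finset

/-- bijections and arbitrary operations -/
def LowerB : Prop := ∀ ε η : ℝ, 0 < ε → 0 < η → ∃ c : ℝ, 0 < c ∧ ∃ C n₀ : ℕ, ∀ n ≥ n₀,
    ∀ p : ℕ, p.Prime → n ^ C ≤ p → p ≤ 2 ^ n →
    ∃ Bad : Finset ((Fin n → ZMod p) × (Fin n → ZMod p)), n * Bad.card ≤ p ^ (2 * n) ∧
      ∀ a b, (a, b) ∉ Bad → ∀ (L : Type) [Finite L], Nat.card L = p →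
        ∀ (H T E F : ℕ) (P : GScheme (ZMod p) L H), 1 ≤ T → T ^ 101 ≤ n →
        (E : ℝ) ≤ (1 - η) * (n : ℝ) ^ 2 → (F : ℝ) ≤ p / (n : ℝ) ^ ε →
        (Nat.card {σ : ZMod p ≃ L // Works P T a b E F σ} : ℝ) *
          (n : ℝ) ^ (c * (n : ℝ) ^ 2 / T) ≤ H * (p.factorial : ℝ)

/-- `(3 T + 1) ^ 100 ≤ n` if `T ^ 101 ≤ n` and `n` is large -/
theorem pow_reads_le {n N T : ℕ} (hN : N = 4 ^ (100 * 101)) (hn : N ≤ n) (hT : 1 ≤ T)
    (hTn : T ^ 101 ≤ n) : (3 * T + 1) ^ 100 ≤ n := by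
  have h1 : ((3 * T + 1) ^ 100) ^ 101 ≤ n ^ 101 := by
    calc ((3 * T + 1) ^ 100) ^ 101 = (3 * T + 1) ^ (100 * 101) := (pow_mul _ _ _).symm
      _ ≤ (4 * T) ^ (100 * 101) := Nat.pow_le_pow_left (by omega) _
      _ = 4 ^ (100 * 101) * T ^ (101 * 100) := by rw [mul_pow, Nat.mul_comm 101 100]
      _ = N * (T ^ 101) ^ 100 := by rw [← hN, pow_mul T 101 100]
      _ ≤ n * n ^ 100 := Nat.mul_le_mul hn (Nat.pow_le_pow_left hTn _)
      _ = n ^ 101 := (pow_succ' n 100).symm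
  exact (Nat.pow_le_pow_iff_left (by norm_num)).1 h1

theorem exists_threshold : ∃ N : ℕ, ∀ n T : ℕ, N ≤ n → 1 ≤ T → T ^ 101 ≤ n →
    (3 * T + 1) ^ 100 ≤ n := by
  obtain ⟨M, hM⟩ : ∃ M : ℕ, M = 100 * 101 := ⟨_, rfl⟩
  refine ⟨4 ^ M, fun n T hn hT hTn => pow_reads_le ?_ hn hT hTn⟩
  rw [hM]

theorem lowerB_of_lowerT (h : LowerT) : LowerB := by
  intro ε η hε hη
  obtain ⟨c, hc, C, n₀, h1⟩ := h ε η hε hη
  obtain ⟨N, hN⟩ := exists_threshold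
  refine ⟨c / 4, by positivity, C, max (max n₀ N) 1, fun n hn p hp hnp hpn => ?_⟩
  have hn0 : n₀ ≤ n := (le_max_left _ _).trans ((le_max_left _ _).trans hn)
  have hnN : N ≤ n := (le_max_right _ _).trans ((le_max_left _ _).trans hn)
  have hn1 : 1 ≤ n := (le_max_right _ _).trans hn
  obtain ⟨Bad, hBad, h2⟩ := h1 n hn0 p hp hnp hpn
  refine ⟨Bad, hBad, fun a b hab L _ hL H T E F P hT hTn hE hF => ?_⟩
  have : Fact p.Prime := ⟨hp⟩
  classical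
  choose ask dec' hfr hred using fun α => red (P.op α) (P.dec α)
  have h3 := h2 a b hab L hL H (3 * T + 1) E F ask dec' hfr (by omega)
    (hN n T hnN hT hTn) hE hF
  have h4 : ∀ σ : ZMod p ≃ L, Works P T a b E F σ ↔ ∃ α,
      Set.encard {z | IsSum a b z ∧ ¬ dec' α (view (ask α) σ z (3 * T + 1))} ≤ E ∧
      Set.encard {z | ¬ IsSum a b z ∧ dec' α (view (ask α) σ z (3 * T + 1))} ≤ F := by
    intro σ
    unfold Works Accepts
    simp only [hred]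
  simp only [h4]
  refine le_trans ?_ h3
  apply mul_le_mul_of_nonneg_left _ (Nat.cast_nonneg _)
  apply Real.rpow_le_rpow_of_exponent_le (by exact_mod_cast hn1)
  have hT0 : (1 : ℝ) ≤ T := by exact_mod_cast hT
  have h5 : (0 : ℝ) < ((3 * T + 1 : ℕ) : ℝ) := by positivity
  have h6 : ((3 * T + 1 : ℕ) : ℝ) ≤ 4 * T := by
    push_cast
    linarith
  rw [div_mul_eq_mul_div, div_div]
  exact div_le_div_of_nonneg_left (by positivity) h5 h6

end Pool.Agent.GGF
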