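import Mathlib
import Pool.Agent.GGE.Inj
import Pool.Agent.GGF.Gen

/-!
# 3SUM-Indexing, generic model, operations: from bijective labellings to injective ones
-/

namespace Pool.Agent.GGF

open Finset

/-- the lower bound for injections -/
def LowerI : Prop := ∀ ε η : ℝ, 0 < ε → 0 < η → ∃ c : ℝ, 0 < c ∧ ∃ C n₀ : ℕ, ∀ n ≥ n₀,
    ∀ p : ℕ, p.Prime → n ^ C ≤ p → p ≤ 2 ^ n →
    ∃ Bad : Finset ((Fin n → ZMod p) × (Fin n → ZMod p)), n * Bad.card ≤ p ^ (2 * n) ∧
      ∀ a b, (a, b) ∉ Bad → ∀ (L : Type) [Finite L]
        (H T E F : ℕ) (P : GScheme (ZMod p) L H), 1 ≤ T → T ^ 101 ≤ n →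
        (E : ℝ) ≤ (1 - η) * (n : ℝ) ^ 2 → (F : ℝ) ≤ p / (n : ℝ) ^ ε →
        (Nat.card {σ : ZMod p → L // Function.Injective σ ∧ Works P T a b E F σ} : ℝ) *
          (n : ℝ) ^ (c * (n : ℝ) ^ 2 / T) ≤ H * Nat.card {σ : ZMod p → L // Function.Injective σ}

section restrict

variable {K L : Type}

open Classical in
/-- the answers of the structure, from those of the restricted structure: `none` if a label of the
operation was not in `S` -/
noncomputable def tr (op : List (Option L) → Op K L) (S : Finset L) :
    List (Option S) → List (Option L)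
  | [] => []
  | e :: l =>
    (if l = [] ∨ ((op (tr op S l)).x ∈ S ∧ (op (tr op S l)).y ∈ S) then e.map Subtype.val
      else none) :: tr op S l

open Classical in
/-- the operation if its labels are in `S`, otherwise a dummy operation -/
noncomputable def rop [Zero K] (o : Op K L) (S : Finset L) (s : S) : Op K S :=
  if h : o.x ∈ S ∧ o.y ∈ S then ⟨o.c₀, o.c₁, o.c₂, ⟨o.x, h.1⟩, ⟨o.y, h.2⟩⟩ else ⟨0, 0, 0, s, s⟩

/-- the structure restricted to the labels of `S` -/
noncomputable def GScheme.restrict [Zero K] {H : ℕ} (P : GScheme K L H) (S : Finset L) (s : S) :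
    GScheme K S H where
  op α l := rop (P.op α (tr (P.op α) S l)) S s
  dec α l := P.dec α (tr (P.op α) S l)

theorem num_val {S : Finset L} (σ : K ≃ S) {l : L} (h : l ∈ S) :
    Function.partialInv (fun x => (σ x : L)) l = some (σ.symm ⟨l, h⟩) := by
  have h1 : ∃ x, (σ x : L) = l := ⟨σ.symm ⟨l, h⟩, by rw [Equiv.apply_symm_apply]⟩
  unfold Function.partialInv
  rw [dif_pos h1]
  congr 1
  rw [Equiv.eq_symm_apply]
  exact Subtype.ext h1.choose_spec

theorem num_val_none {S : Finset L} (σ : K ≃ S) {l : L} (h : l ∉ S) :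
    Function.partialInv (fun x => (σ x : L)) l = none := by
  unfold Function.partialInv
  rw [dif_neg]
  rintro ⟨x, rfl⟩
  exact h (σ x).2

theorem run_restrict [Mul K] [Add K] [Zero K] (op : List (Option L) → Op K L) (S : Finset L)
    (s : S) (σ : K ≃ S) (y : K) (k : ℕ) :
    tr op S (run (fun l => rop (op (tr op S l)) S s) σ y k) = run op (fun x => (σ x : L)) y k := by
  induction k with
  | zero => simp [run, tr]
  | succ k ih =>
    rw [run, run, tr, ih]
    congr 1
    have h0 : run (fun l => rop (op (tr op S l)) S s) σ y k ≠ [] := by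
      cases k <;> simp [run]
    set A := run op (fun x => (σ x : L)) y k with hA
    by_cases h : (op A).x ∈ S ∧ (op A).y ∈ S
    · rw [if_pos (Or.inr h), eval_equiv, Option.map_some]
      unfold Op.eval rop
      rw [num_val σ h.1, num_val σ h.2, dif_pos h]
      rfl
    · rw [if_neg (not_or.2 ⟨h0, h⟩)]
      unfold Op.eval
      rw [not_and_or] at h
      rcases h with h | h
      · rw [num_val_none σ h]
        rfl
      · rw [num_val_none σ h]
        cases Function.partialInv (fun x => (σ x : L)) (op A).x <;> rfl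

theorem works_restrict [Mul K] [Add K] [Zero K] {H n : ℕ} (P : GScheme K L H) (T : ℕ)
    (a b : Fin n → K) (E F : ℕ) (S : Finset L) (s : S) (σ : K ≃ S) :
    Works (P.restrict S s) T a b E F σ ↔ Works P T a b E F fun x => (σ x : L) := by
  have h : ∀ α z, Accepts (P.restrict S s) T σ α z ↔ Accepts P T (fun x => (σ x : L)) α z := by
    intro α z
    unfold Accepts GScheme.restrict
    dsimp only
    rw [run_restrict]
  unfold Works
  simp only [h]

end restrict

open Classical in
theorem lowerI_of_lowerB (h : LowerB) : LowerI := by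
  intro ε η hε hη
  obtain ⟨c, hc, C, n₀, h1⟩ := h ε η hε hη
  refine ⟨c, hc, C, n₀, fun n hn p hp hnp hpn => ?_⟩
  obtain ⟨Bad, hBad, h2⟩ := h1 n hn p hp hnp hpn
  refine ⟨Bad, hBad, fun a b hab L _ H T E F P hT hTn hE hF => ?_⟩
  have : Fact p.Prime := ⟨hp⟩
  have := Fintype.ofFinite L
  set X : ℝ := (n : ℝ) ^ (c * (n : ℝ) ^ 2 / T) with hX
  have hX0 : 0 ≤ X := by positivity
  obtain ⟨V, hV⟩ : ∃ V : (ZMod p → L) → Prop, ∀ σ, V σ := ⟨fun _ => True, fun _ => trivial⟩
  -- one image
  have h3 : ∀ S : Finset L,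
      (#{σ : ZMod p → L | (Function.Injective σ ∧ Works P T a b E F σ) ∧ univ.image σ = S} : ℝ) *
        X ≤ H * #{σ : ZMod p → L | (Function.Injective σ ∧ V σ) ∧ univ.image σ = S} := by
    intro S
    by_cases hS : #S = p
    · obtain ⟨s, hs⟩ : S.Nonempty := by
        rw [← card_pos, hS]
        exact hp.pos
      have h4 := h2 a b hab S (by simpa using hS) H T E F (P.restrict S ⟨s, hs⟩) hT hTn hE hF
      have h5 : Nat.card {σ : ZMod p ≃ S // Works (P.restrict S ⟨s, hs⟩) T a b E F σ} =
          #{σ : ZMod p → L |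
            (Function.Injective σ ∧ Works P T a b E F σ) ∧ univ.image σ = S} := by
        rw [← GGE.card_image_eq (fun σ => Works P T a b E F σ) S]
        simp only [works_restrict]
      have h6 : p.factorial =
          #{σ : ZMod p → L | (Function.Injective σ ∧ V σ) ∧ univ.image σ = S} := by
        rw [← GGE.card_image_eq V S]
        have e : ZMod p ≃ S := Fintype.equivOfCardEq (by rw [ZMod.card, Fintype.card_coe, hS])
        rw [Nat.card_congr (Equiv.subtypeUnivEquiv fun _ => hV _), Nat.card_eq_fintype_card,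
          Fintype.card_equiv e, ZMod.card]
      rw [h5] at h4
      rw [← h6]
      exact h4
    · have h4 : #{σ : ZMod p → L |
          (Function.Injective σ ∧ Works P T a b E F σ) ∧ univ.image σ = S} = 0 := by
        rw [card_eq_zero, filter_eq_empty_iff]
        rintro σ - ⟨⟨hi, -⟩, rfl⟩
        apply hS
        rw [card_image_of_injective _ hi, card_univ, ZMod.card]
      rw [h4]
      simp only [Nat.cast_zero, zero_mul]
      positivity
  -- the sum over the images
  have h4 : ∀ W : (ZMod p → L) → Prop, Nat.card {σ : ZMod p → L // Function.Injective σ ∧ W σ} =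
      ∑ S : Finset L, #{σ : ZMod p → L | (Function.Injective σ ∧ W σ) ∧ univ.image σ = S} := by
    intro W
    rw [Nat.card_eq_fintype_card, Fintype.card_subtype,
      card_eq_sum_card_fiberwise (f := fun σ : ZMod p → L => univ.image σ)
        (t := (univ : Finset (Finset L))) (fun _ _ => mem_coe.2 (mem_univ _))]
    simp only [filter_filter]
  have h5 : Nat.card {σ : ZMod p → L // Function.Injective σ} =
      ∑ S : Finset L, #{σ : ZMod p → L | (Function.Injective σ ∧ V σ) ∧ univ.image σ = S} := by
    rw [← h4 V]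
    simp [hV]
  rw [h4 (fun σ => Works P T a b E F σ), h5]
  push_cast
  rw [sum_mul, mul_sum]
  exact sum_le_sum fun S _ => h3 S

end Pool.Agent.GGF
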