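import Mathlib
import Pool.Agent.GGF.Mod
import Pool.Agent.GGE.Up

/-!
# 3SUM-Indexing in the generic group model: the upper bound

A read `c z + g` is the operation `g + c u + 0 v` on the label of `z`.
-/

namespace Pool.Agent.GGF

section up

variable {K L : Type*} [Field K]

/-- the structure of operations made from a structure of reads -/
def toOp (d : L) (ask : List L → K × K) (l : List (Option L)) : Op K L :=
  ⟨(ask (l.filterMap id).dropLast).2, (ask (l.filterMap id).dropLast).1, 0,
    (l.filterMap id).getLastD d, (l.filterMap id).getLastD d⟩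

lemma run_toOp (d : L) (ask : List L → K × K) (σ : K → L) (hσ : Function.Injective σ) (z : K)
    (k : ℕ) :
    run (toOp d ask) σ z k = (GGE.view ask σ z k).map some ++ [some (σ z)] := by
  induction k with
  | zero => simp [run, GGE.view]
  | succ k ih =>
    have h1 : (run (toOp d ask) σ z k).filterMap id = GGE.view ask σ z k ++ [σ z] := by
      rw [ih]
      simp [List.filterMap_append, List.filterMap_map]
    have h2 : (toOp d ask (run (toOp d ask) σ z k)).eval σ =
        some (σ (GGE.fv (ask (GGE.view ask σ z k)) z)) := by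
      generalize run (toOp d ask) σ z k = l at h1
      unfold toOp Op.eval
      rw [h1]
      simp only [List.dropLast_concat, List.getLastD_concat, Function.partialInv_left hσ,
        Option.bind_some, Option.map_some]
      congr 2
      unfold GGE.fv
      ring
    rw [run, h2, ih, GGE.view]
    simp

end up

/-- **Upper bound.** -/
theorem upperG (p : ℕ) (hp : p.Prime) (n T : ℕ) (hT : 2 ≤ T) (hTn : 2 ^ T ≤ n)
    (a b : Fin n → ZMod p) (L : Type) [Fintype L] :
    ∃ (H : ℕ) (P : GScheme (ZMod p) L H),
      (H : ℝ) ≤ (n : ℝ) ^ (15 * (n : ℝ) ^ 2 / T) * (Real.logb 2 (Fintype.card L) + 1) ∧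
      ∀ σ : ZMod p → L, Function.Injective σ → Works P T a b 0 0 σ := by
  classical
  have hpF : Fact p.Prime := ⟨hp⟩
  obtain ⟨H, P, hH, hP⟩ := GGE.upperI p hp n T hT hTn a b L
  rcases isEmpty_or_nonempty L with hL | ⟨⟨d⟩⟩
  · refine ⟨0, ⟨fun i => i.elim0, fun i => i.elim0⟩, ?_, fun σ _ => hL.elim (σ 0)⟩
    exact le_trans (by exact_mod_cast Nat.zero_le H) hH
  refine ⟨H, ⟨fun α => toOp d (P.ask α), fun α l => P.dec α (l.filterMap id).dropLast⟩, hH, ?_⟩
  intro σ hσ
  obtain ⟨α, h0, h1⟩ := hP σ hσ
  have key : ∀ z, Accepts (⟨fun α => toOp d (P.ask α),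
      fun α l => P.dec α (l.filterMap id).dropLast⟩ : GScheme (ZMod p) L H) T σ α z ↔
      GGE.Accepts P T σ α z := by
    intro z
    unfold Accepts GGE.Accepts
    simp only
    rw [run_toOp d (P.ask α) σ hσ z T]
    simp [List.filterMap_append, List.filterMap_map]
  refine ⟨α, ?_, ?_⟩
  · simpa only [key, IsSum, GGE.IsSum] using h0
  · simpa only [key, IsSum, GGE.IsSum] using h1

end Pool.Agent.GGF
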